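import Pool.Agent.PWR.Targets

/-!
# PWR, target BIG: hits by large `b` are rare
-/

set_option autoImplicit false

namespace Pool.Agent.PWR

open Finset

namespace BIG

theorem le_be {b : ℕ} (hb : 1 ≤ b) : (b : ℝ) ≤ be b := by
  have h1 : (1 : ℝ) ≤ b := by exact_mod_cast hb
  have h2 : (1 : ℝ) ≤ √(b : ℝ) := by rw [Real.one_le_sqrt]; exact h1
  unfold be
  nlinarith

theorem pos_of_hit {b n : ℕ} (hb : 1 ≤ b) (hn : 1 ≤ n) {a : ℤ} (h1 : (n : ℝ) ≤ a * be b) :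
    1 ≤ a := by
  have hB := be_pos hb
  have h2 : (1 : ℝ) ≤ n := by exact_mod_cast hn
  by_contra hc
  have h3 : a ≤ 0 := by omega
  have h4 : (a : ℝ) ≤ 0 := by exact_mod_cast h3
  nlinarith

theorem lt_of_hit {b n N : ℕ} (hb : 1 ≤ b) (hn : 1 ≤ n) (hN : n < N) (h : Hit b n) : b < N := by
  obtain ⟨a, h1, h2⟩ := h
  have ha := pos_of_hit hb hn h1
  have ha' : (1 : ℝ) ≤ a := by exact_mod_cast ha
  have hB := be_pos hb
  have hb2 := le_be hb
  have h3 : (n : ℝ) + 1 ≤ N := by exact_mod_cast hN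
  have h4 : (b : ℝ) < N := by nlinarith
  exact_mod_cast h4

theorem ct_hit {b : ℕ} (N : ℕ) (hb : 1 ≤ b) : (CT N (Hit b) : ℝ) ≤ N * th b := by
  classical
  have hB := be_pos hb
  have ht := th_pos hb
  have e := th_mul_be hb
  have h0 : 0 ≤ (N : ℝ) * th b := by positivity
  have h1 : CT N (Hit b) ≤ ⌊(N : ℝ) * th b⌋₊ := by
    unfold CT
    have hsub : ((Finset.Ico 1 N).filter (Hit b)) ⊆
        (Finset.Icc 1 ⌊(N : ℝ) * th b⌋₊).image (fun a : ℕ => ⌊(a : ℝ) * be b⌋₊) := by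
      intro n hn
      rw [Finset.mem_filter, Finset.mem_Ico] at hn
      obtain ⟨⟨hn1, hn2⟩, a, ha1, ha2⟩ := hn
      have ha := pos_of_hit hb hn1 ha1
      obtain ⟨m, rfl⟩ : ∃ m : ℕ, a = m := ⟨a.toNat, (Int.toNat_of_nonneg (by omega)).symm⟩
      have hm : 1 ≤ m := by exact_mod_cast ha
      have hcast : ((m : ℤ) : ℝ) = (m : ℝ) := by norm_cast
      rw [hcast] at ha1 ha2
      rw [Finset.mem_image]
      refine ⟨m, ?_, ?_⟩
      · rw [Finset.mem_Icc]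
        refine ⟨hm, Nat.le_floor ?_⟩
        have h3 : (n : ℝ) + 1 ≤ N := by exact_mod_cast hn2
        have h4 : (m : ℝ) * be b * th b ≤ N * th b :=
          mul_le_mul_of_nonneg_right (by linarith) ht.le
        nlinarith
      · rw [Nat.floor_eq_iff (by positivity)]
        exact ⟨ha1, ha2⟩
    refine (Finset.card_le_card hsub).trans (Finset.card_image_le.trans ?_)
    simp
  calc (CT N (Hit b) : ℝ) ≤ (⌊(N : ℝ) * th b⌋₊ : ℝ) := by exact_mod_cast h1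
    _ ≤ N * th b := Nat.floor_le h0

theorem th_le {b : ℕ} (hb : 1 ≤ b) :
    th (b + 1) ≤ 2 / √(b : ℝ) - 2 / √((b + 1 : ℕ) : ℝ) := by
  have hb' : (1 : ℝ) ≤ b := by exact_mod_cast hb
  have hx : 0 < √(b : ℝ) := Real.sqrt_pos.2 (by linarith)
  have hy : 0 < √((b + 1 : ℕ) : ℝ) := Real.sqrt_pos.2 (by positivity)
  have hx2 : √(b : ℝ) ^ 2 = b := Real.sq_sqrt (by linarith)
  have hy2 : √((b + 1 : ℕ) : ℝ) ^ 2 = ((b + 1 : ℕ) : ℝ) := Real.sq_sqrt (by positivity)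
  have hxy : √(b : ℝ) ≤ √((b + 1 : ℕ) : ℝ) := Real.sqrt_le_sqrt (by push_cast; linarith)
  unfold th be
  set x := √(b : ℝ) with hxd
  set y := √((b + 1 : ℕ) : ℝ) with hyd
  have hyx : y ^ 2 = x ^ 2 + 1 := by
    rw [hy2, hx2]
    push_cast
    ring
  rw [← hy2]
  have h1 : 2 / x - 2 / y = 2 * (y - x) / (x * y) := by
    field_simp
  have h2 : (y - x) * (y + x) = 1 := by nlinarith
  rw [h1, div_le_div_iff₀ (by positivity) (by positivity)]
  have h3 : 0 < y + x := by positivity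
  have h4 : y - x = 1 / (y + x) := by
    rw [eq_div_iff h3.ne', h2]
  rw [h4]
  have h5 : 2 * (1 / (y + x)) * (y ^ 2 * y) = 2 * y ^ 3 / (y + x) := by
    field_simp
  rw [h5, le_div_iff₀ h3]
  have h6 : x * y * (y + x) ≤ y * y * (y + y) := by
    have : x * y ≤ y * y := by nlinarith
    have h7 : y + x ≤ y + y := by linarith
    exact mul_le_mul this h7 (by positivity) (by positivity)
  nlinarith

theorem sum_th {Y : ℕ} (hY : 1 ≤ Y) (k : ℕ) :
    ∑ b ∈ Ioc Y (Y + k), th b ≤ 2 / √(Y : ℝ) - 2 / √((Y + k : ℕ) : ℝ) := by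
  induction k with
  | zero => simp
  | succ k ih =>
    have h1 : Ioc Y (Y + (k + 1)) = insert (Y + k + 1) (Ioc Y (Y + k)) := by
      ext z
      simp only [Finset.mem_insert, Finset.mem_Ioc]
      omega
    rw [h1, Finset.sum_insert (by simp)]
    have h2 := th_le (b := Y + k) (by omega)
    have h3 : Y + (k + 1) = Y + k + 1 := by omega
    rw [h3]
    linarith

theorem sum_th_le {Y : ℕ} (hY : 1 ≤ Y) (N : ℕ) : ∑ b ∈ Ioc Y N, th b ≤ 2 / √(Y : ℝ) := by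
  rcases le_total N Y with h | h
  · rw [Finset.Ioc_eq_empty (by omega), Finset.sum_empty]
    positivity
  · obtain ⟨k, rfl⟩ := Nat.exists_eq_add_of_le h
    refine (sum_th hY k).trans ?_
    have : 0 ≤ 2 / √((Y + k : ℕ) : ℝ) := by positivity
    linarith

end BIG

/-- BIG. -/
theorem tBIG : T_BIG := by
  intro N Y hY
  have h1 : CT N (fun n => ∃ b, Y < b ∧ Hit b n) ≤ ∑ b ∈ Ioc Y N, CT N (Hit b) := by
    apply CT_le_sum (Ioc Y N) Hit
    rintro n hn1 hn2 ⟨b, hb, hh⟩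
    have := BIG.lt_of_hit (by omega) hn1 hn2 hh
    exact ⟨b, Finset.mem_Ioc.2 ⟨hb, this.le⟩, hh⟩
  have h2 : (CT N (fun n => ∃ b, Y < b ∧ Hit b n) : ℝ) ≤ ∑ b ∈ Ioc Y N, (CT N (Hit b) : ℝ) := by
    exact_mod_cast h1
  refine h2.trans ?_
  calc ∑ b ∈ Ioc Y N, (CT N (Hit b) : ℝ) ≤ ∑ b ∈ Ioc Y N, (N : ℝ) * th b := by
        apply Finset.sum_le_sum
        intro b hb
        rw [Finset.mem_Ioc] at hb
        exact BIG.ct_hit N (by omega)
    _ = N * ∑ b ∈ Ioc Y N, th b := by rw [Finset.mul_sum]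
    _ ≤ N * (2 / √(Y : ℝ)) := by
        exact mul_le_mul_of_nonneg_left (BIG.sum_th_le hY N) (Nat.cast_nonneg N)
    _ = 2 * N / √(Y : ℝ) := by ring

end Pool.Agent.PWR
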