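import Pool.Agent.PWR.Targets

/-!
# PWR, target CNT: the count of `n` with many powerful numbers
-/

set_option autoImplicit false

namespace Pool.Agent.PWR

open Finset

theorem tCNT (h1 : T_HUP) (h2 : T_BIG) (h3 : T_PACK) (h4 : T_KRY) : T_CNT := by
  classical
  intro R Z Y N hR hZ hY hN
  have hY1 : 1 ≤ Y := by
    have : 1 ≤ R ^ 2 := Nat.one_le_pow _ _ hR
    omega
  set F : Finset (Finset ℕ) := ((Ioc Z Y).powersetCard R).filter (fun T => ∀ b ∈ T, Squarefree b)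
    with hF
  have hstep : CT N (fun n => Z + R ≤ h n) ≤
      CT N (fun n => (∃ b, Y < b ∧ Hit b n) ∨ ∃ T ∈ F, ∀ b ∈ T, Hit b n) := by
    apply CT_mono
    intro n _ _ hn
    obtain ⟨T, hT, hTb⟩ := h1 n Z R hn
    by_cases hex : ∃ b ∈ T, Y < b
    · obtain ⟨b, hb, hYb⟩ := hex
      exact Or.inl ⟨b, hYb, (hTb b hb).2.2⟩
    · right
      push Not at hex
      refine ⟨T, ?_, fun b hb => (hTb b hb).2.2⟩
      rw [hF, mem_filter, mem_powersetCard]
      refine ⟨⟨fun b hb => ?_, hT⟩, fun b hb => (hTb b hb).2.1⟩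
      rw [mem_Ioc]
      exact ⟨(hTb b hb).1, hex b hb⟩
  have hstep2 : CT N (fun n => ∃ T ∈ F, ∀ b ∈ T, Hit b n) ≤
      ∑ T ∈ F, CT N (fun n => ∀ b ∈ T, Hit b n) := by
    apply CT_le_sum F (fun T n => ∀ b ∈ T, Hit b n)
    rintro n _ _ ⟨T, hT, hh⟩
    exact ⟨T, hT, hh⟩
  have hone : ∀ T ∈ F, (CT N (fun n => ∀ b ∈ T, Hit b n) : ℝ) ≤
      2 * N * 6 ^ R * ∏ b ∈ T, th b := by
    intro T hT
    rw [hF, mem_filter, mem_powersetCard] at hT
    obtain ⟨⟨hsub, hcard⟩, hsq⟩ := hT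
    have hb2 : ∀ b ∈ T, 2 ≤ b ∧ b ≤ Y ∧ Squarefree b := by
      intro b hb
      have := mem_Ioc.1 (hsub hb)
      exact ⟨by omega, this.2, hsq b hb⟩
    have hK := h4 R Y hR hY T hcard hb2
    have := h3 T _ (fun b hb => (hb2 b hb).1) hK N hN
    rwa [hcard] at this
  have hb := h2 N Y hY1
  have hsum : (CT N (fun n => ∃ T ∈ F, ∀ b ∈ T, Hit b n) : ℝ) ≤
      2 * N * 6 ^ R * ∑ T ∈ (Ioc Z Y).powersetCard R, ∏ b ∈ T, th b := by
    calc (CT N (fun n => ∃ T ∈ F, ∀ b ∈ T, Hit b n) : ℝ)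
        ≤ ∑ T ∈ F, (CT N (fun n => ∀ b ∈ T, Hit b n) : ℝ) := by exact_mod_cast hstep2
      _ ≤ ∑ T ∈ F, 2 * N * 6 ^ R * ∏ b ∈ T, th b := Finset.sum_le_sum hone
      _ ≤ ∑ T ∈ (Ioc Z Y).powersetCard R, 2 * N * 6 ^ R * ∏ b ∈ T, th b := by
          apply Finset.sum_le_sum_of_subset_of_nonneg
          · rw [hF]
            exact Finset.filter_subset _ _
          · intro T hT _
            have : 0 ≤ ∏ b ∈ T, th b := by
              apply Finset.prod_nonneg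
              intro b hb
              have h5 := mem_Ioc.1 ((mem_powersetCard.1 hT).1 hb)
              exact (th_pos (by omega)).le
            positivity
      _ = 2 * N * 6 ^ R * ∑ T ∈ (Ioc Z Y).powersetCard R, ∏ b ∈ T, th b := by
          rw [Finset.mul_sum]
  have hor := CT_or N (fun n => ∃ b, Y < b ∧ Hit b n) (fun n => ∃ T ∈ F, ∀ b ∈ T, Hit b n)
  have hfin : (CT N (fun n => Z + R ≤ h n) : ℝ) ≤
      (CT N (fun n => ∃ b, Y < b ∧ Hit b n) : ℝ) +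
        (CT N (fun n => ∃ T ∈ F, ∀ b ∈ T, Hit b n) : ℝ) := by
    exact_mod_cast hstep.trans hor
  linarith

end Pool.Agent.PWR
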