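import Pool.Agent.PWR.Targets

/-!
# EXC: the exceptional set of the upper half
-/

namespace Pool.Agent.PWR

open Finset

namespace EXC

theorem real_facts (ε : ℝ) (hε : 0 < ε) : ∀ᶠ l : ℝ in Filter.atTop,
    45 ≤ l ∧ 184 ≤ ε * l ∧ 20 * l ^ 3 ≤ Real.exp ((1 - Real.log 2) * l) ∧
      l ≤ Real.exp (ε * l / 2) ∧ (1 + ε) * Real.log 2 ≤ ε * l / 2 := by
  have hl2 : Real.log 2 < 1 := by
    have := Real.log_two_lt_d9
    linarith
  have h1 := (isLittleO_pow_exp_pos_mul_atTop (k := 3) (b := 1 - Real.log 2)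
    (by linarith)).bound (show (0 : ℝ) < 1 / 20 by norm_num)
  have h2 := (isLittleO_pow_exp_pos_mul_atTop (k := 1) (b := ε / 2)
    (by linarith)).bound (show (0 : ℝ) < 1 by norm_num)
  filter_upwards [Filter.eventually_ge_atTop (45 : ℝ), Filter.eventually_ge_atTop (184 / ε),
    Filter.eventually_ge_atTop (2 * ((1 + ε) * Real.log 2) / ε), h1, h2] with l h3 h4 h5 h6 h7
  refine ⟨h3, ?_, ?_, ?_, ?_⟩
  · rw [div_le_iff₀ hε] at h4
    linarith
  · rw [Real.norm_eq_abs, Real.norm_eq_abs, abs_of_pos (Real.exp_pos _),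
      abs_of_nonneg (by positivity)] at h6
    linarith
  · rw [Real.norm_eq_abs, Real.norm_eq_abs, abs_of_pos (Real.exp_pos _),
      abs_of_nonneg (by positivity), pow_one, one_mul] at h7
    rw [show ε * l / 2 = ε / 2 * l by ring]
    exact h7
  · rw [div_le_iff₀ hε] at h5
    linarith

theorem tends : Filter.Tendsto (fun N : ℕ => Real.log (Real.log N)) Filter.atTop Filter.atTop :=
  Real.tendsto_log_atTop.comp (Real.tendsto_log_atTop.comp tendsto_natCast_atTop_atTop)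

theorem ct_card {N : ℕ} {p : ℕ → Prop} (S : Finset ℕ)
    (hp : ∀ n, 1 ≤ n → n < N → p n → n ∈ S) : CT N p ≤ S.card := by
  classical
  unfold CT
  apply Finset.card_le_card
  intro n hn
  rw [Finset.mem_filter, Finset.mem_Ico] at hn
  exact hp n hn.1.1 hn.1.2 hn.2

theorem ct_sq (N : ℕ) : (CT N (fun n => n * n < N) : ℝ) ≤ √(N : ℝ) := by
  refine le_trans ?_ Real.nat_sqrt_le_real_sqrt
  have h0 : CT N (fun n => n * n < N) ≤ (Finset.Icc 1 (Nat.sqrt N)).card := by
    apply ct_card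
    intro n h1 _ h2
    rw [Finset.mem_Icc]
    exact ⟨h1, Nat.le_sqrt.2 (le_of_lt h2)⟩
  rw [Nat.card_Icc] at h0
  exact_mod_cast (by omega : CT N (fun n => n * n < N) ≤ Nat.sqrt N)

/-- the third part -/
theorem part3 {ε l : ℝ} (h1 : 45 ≤ l) (h2 : 184 ≤ ε * l) :
    6 * (12 / √((⌊Real.exp (ε * l / 2)⌋₊ : ℕ) : ℝ)) ^ ⌊l⌋₊ ≤
      1 / 3 * Real.exp (-(ε / 32 * l ^ 2)) := by
  have hx : (24 : ℝ) ≤ Real.exp (ε * l / 8) := by
    have := Real.add_one_le_exp (ε * l / 8)
    linarith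
  have hx2 : (24 : ℝ) ≤ Real.exp (ε * l / 2) :=
    hx.trans (Real.exp_le_exp.2 (by linarith))
  have hZ : Real.exp (ε * l / 2) / 4 ≤ ((⌊Real.exp (ε * l / 2)⌋₊ : ℕ) : ℝ) := by
    have := Nat.lt_floor_add_one (Real.exp (ε * l / 2))
    linarith
  have hs : Real.exp (ε * l / 4) / 2 ≤ √((⌊Real.exp (ε * l / 2)⌋₊ : ℕ) : ℝ) := by
    apply Real.le_sqrt_of_sq_le
    have : Real.exp (ε * l / 2) = Real.exp (ε * l / 4) ^ 2 := by
      rw [← Real.exp_nat_mul]; congr 1; push_cast; ring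
    calc (Real.exp (ε * l / 4) / 2) ^ 2 = Real.exp (ε * l / 4) ^ 2 / 4 := by ring
      _ = Real.exp (ε * l / 2) / 4 := by rw [this]
      _ ≤ _ := hZ
  have hp := Real.exp_pos (ε * l / 4)
  have h3 : 12 / √((⌊Real.exp (ε * l / 2)⌋₊ : ℕ) : ℝ) ≤ Real.exp (-(ε * l / 8)) := by
    rw [div_le_iff₀ (lt_of_lt_of_le (by positivity) hs)]
    have e1 : Real.exp (-(ε * l / 8)) * Real.exp (ε * l / 4) = Real.exp (ε * l / 8) := by
      rw [← Real.exp_add]; congr 1; ring
    have h4 := mul_le_mul_of_nonneg_left hs (Real.exp_pos (-(ε * l / 8))).le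
    rw [mul_div_assoc', e1] at h4
    linarith
  have h0 : 0 ≤ 12 / √((⌊Real.exp (ε * l / 2)⌋₊ : ℕ) : ℝ) := by positivity
  have h5 := pow_le_pow_left₀ h0 h3 ⌊l⌋₊
  have hR : l / 2 ≤ (⌊l⌋₊ : ℝ) := by
    have := Nat.lt_floor_add_one l
    linarith
  have h6 : Real.exp (-(ε * l / 8)) ^ ⌊l⌋₊ ≤ Real.exp (-(ε * l ^ 2 / 16)) := by
    rw [← Real.exp_nat_mul]
    apply Real.exp_le_exp.2
    have := mul_le_mul_of_nonneg_left hR (show 0 ≤ ε * l / 8 by linarith)
    nlinarith
  have h7 : (18 : ℝ) ≤ Real.exp (ε * l ^ 2 / 32) := by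
    have h8 : 184 * 45 ≤ ε * l * l := by
      have := mul_le_mul h2 h1 (by norm_num) (by linarith)
      linarith
    have := Real.add_one_le_exp (ε * l ^ 2 / 32)
    nlinarith
  have e2 : Real.exp (-(ε * l ^ 2 / 16)) * Real.exp (ε * l ^ 2 / 32) =
      Real.exp (-(ε / 32 * l ^ 2)) := by
    rw [← Real.exp_add]; congr 1; ring
  have h8 := mul_le_mul_of_nonneg_left h7 (Real.exp_pos (-(ε * l ^ 2 / 16))).le
  rw [e2] at h8
  linarith

end EXC

/-- **EXC** -/
theorem tEXC (h1 : T_CNT) (h2 : T_SYM) : T_EXC := by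
  intro ε hε
  refine ⟨min (ε / 32) (1 / 8), lt_min (by linarith) (by norm_num), ?_⟩
  filter_upwards [EXC.tends.eventually (EXC.real_facts ε hε), Filter.eventually_gt_atTop 0]
    with N hN hN0
  set L := Real.log (N : ℝ) with hL
  set l := Real.log L with hl
  obtain ⟨f1, f2, f3, f4, f5⟩ := hN
  set c := min (ε / 32) (1 / 8) with hc
  have hc1 : c ≤ ε / 32 := min_le_left _ _
  have hc2 : c ≤ 1 / 8 := min_le_right _ _
  have hN1 : (0 : ℝ) < N := by exact_mod_cast hN0
  have hL0 : 0 < L := by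
    by_contra hneg
    have : l ≤ 0 ∨ L < 0 := by
      rcases (not_lt.1 hneg).eq_or_lt with h | h
      · left; rw [hl, h, Real.log_zero]
      · right; exact h
    rcases this with h | h
    · linarith
    · have : 0 ≤ L := Real.log_natCast_nonneg N
      linarith
  have eL : L = Real.exp l := (Real.exp_log hL0).symm
  have eN : (N : ℝ) = Real.exp L := (Real.exp_log hN1).symm
  set R := ⌊l⌋₊ with hR
  set Z := ⌊Real.exp (ε * l / 2)⌋₊ with hZ
  set Y := ⌈Real.exp (l ^ 2)⌉₊ with hY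
  have hl0 : 0 ≤ l := by linarith
  have hRl : (R : ℝ) ≤ l := Nat.floor_le hl0
  have hR1 : 1 ≤ R := Nat.le_floor (by push_cast; linarith)
  have hx : (24 : ℝ) ≤ Real.exp (ε * l / 2) := by
    have := Real.add_one_le_exp (ε * l / 2)
    linarith
  have hZ1 : 1 ≤ Z := Nat.le_floor (by push_cast; linarith)
  have hZl : (Z : ℝ) ≤ Real.exp (ε * l / 2) := Nat.floor_le (Real.exp_pos _).le
  have hYl : Real.exp (l ^ 2) ≤ Y := Nat.le_ceil _
  have hsq : (2025 : ℝ) ≤ l ^ 2 := by nlinarith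
  have hYu : (Y : ℝ) ≤ Real.exp (2 * l ^ 2) := by
    have h3 : (Y : ℝ) < Real.exp (l ^ 2) + 1 := Nat.ceil_lt_add_one (Real.exp_pos _).le
    have h4 : Real.exp (2 * l ^ 2) = Real.exp (l ^ 2) * Real.exp (l ^ 2) := by
      rw [← Real.exp_add]; congr 1; ring
    have h5 := Real.add_one_le_exp (l ^ 2)
    nlinarith
  have hRY : 1000 * R ^ 2 ≤ Y := by
    have h3 : (1000 : ℝ) * R ^ 2 ≤ Y := by
      have h4 : (R : ℝ) ^ 2 ≤ l ^ 2 := pow_le_pow_left₀ (Nat.cast_nonneg _) hRl 2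
      have h5 := Real.quadratic_le_exp_of_nonneg (sq_nonneg l)
      nlinarith
    exact_mod_cast h3
  have hYN : Y ^ (10 * R * 2 ^ R) ≤ N := by
    have h3 : (Y : ℝ) ^ (10 * R * 2 ^ R) ≤ N := by
      have h4 := pow_le_pow_left₀ (Nat.cast_nonneg _) hYu (10 * R * 2 ^ R)
      refine h4.trans ?_
      rw [eN, ← Real.exp_nat_mul]
      apply Real.exp_le_exp.2
      push_cast
      have h5 : (2 : ℝ) ^ R ≤ Real.exp (Real.log 2 * l) := by
        have : (2 : ℝ) ^ R = Real.exp (Real.log 2 * R) := by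
          rw [← Real.rpow_natCast, Real.rpow_def_of_pos (by norm_num)]
        rw [this]
        apply Real.exp_le_exp.2
        exact mul_le_mul_of_nonneg_left hRl (Real.log_nonneg (by norm_num))
      have h6 : (R : ℝ) * 2 ^ R ≤ l * Real.exp (Real.log 2 * l) :=
        mul_le_mul hRl h5 (by positivity) hl0
      have h7 : Real.exp ((1 - Real.log 2) * l) * Real.exp (Real.log 2 * l) = L := by
        rw [← Real.exp_add, eL]; congr 1; ring
      have h8 := mul_le_mul_of_nonneg_right f3 (Real.exp_pos (Real.log 2 * l)).le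
      rw [h7] at h8
      have h9 := mul_le_mul_of_nonneg_left h6 (show 0 ≤ 20 * l ^ 2 by positivity)
      calc 10 * (R : ℝ) * 2 ^ R * (2 * l ^ 2) = 20 * l ^ 2 * (R * 2 ^ R) := by ring
        _ ≤ 20 * l ^ 2 * (l * Real.exp (Real.log 2 * l)) := h9
        _ = 20 * l ^ 3 * Real.exp (Real.log 2 * l) := by ring
        _ ≤ L := h8
    exact_mod_cast h3
  have hcnt := h1 R Z Y N hR1 hZ1 hRY hYN
  have hsym := h2.2 R Z Y hZ1
  -- the splitting
  have hsplit : (CT N (fun n => (Real.log n) ^ ε ≤ h n) : ℝ) ≤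
      √(N : ℝ) + CT N (fun n => Z + R ≤ h n) := by
    have h3 : CT N (fun n => (Real.log n) ^ ε ≤ h n) ≤
        CT N (fun n => n * n < N ∨ Z + R ≤ h n) := by
      apply CT_mono
      intro n hn1 hnN hn
      by_cases hsm : n * n < N
      · exact Or.inl hsm
      · right
        have hn0 : (0 : ℝ) < n := by exact_mod_cast hn1
        have h4 : (N : ℝ) ≤ (n : ℝ) * n := by exact_mod_cast not_lt.1 hsm
        have h5 : L ≤ 2 * Real.log n := by
          have h6 := Real.log_le_log hN1 h4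
          rw [Real.log_mul hn0.ne' hn0.ne'] at h6
          linarith
        have h6 : (L / 2) ^ ε ≤ (Real.log n) ^ ε :=
          Real.rpow_le_rpow (by linarith) (by linarith) hε.le
        have h7 : (L / 2) ^ ε = Real.exp (ε * (l - Real.log 2)) := by
          rw [Real.rpow_def_of_pos (by linarith), Real.log_div hL0.ne' (by norm_num)]
          congr 1
          ring
        have h8 : Real.exp (ε * l / 2) + Real.exp (ε * l / 2) ≤
            Real.exp (ε * (l - Real.log 2)) := by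
          have h9 : Real.exp (Real.log 2 + ε * l / 2) = 2 * Real.exp (ε * l / 2) := by
            rw [Real.exp_add, Real.exp_log (by norm_num)]
          rw [← two_mul, ← h9]
          apply Real.exp_le_exp.2
          nlinarith
        have h10 : ((Z + R : ℕ) : ℝ) ≤ h n := by
          push_cast
          calc (Z : ℝ) + R ≤ Real.exp (ε * l / 2) + l := add_le_add hZl hRl
            _ ≤ Real.exp (ε * l / 2) + Real.exp (ε * l / 2) := by linarith
            _ ≤ Real.exp (ε * (l - Real.log 2)) := h8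
            _ = (L / 2) ^ ε := h7.symm
            _ ≤ (Real.log n) ^ ε := h6
            _ ≤ h n := hn
        exact_mod_cast h10
    have h4 := h3.trans (CT_or N (fun n => n * n < N) (fun n => Z + R ≤ h n))
    have h5 : (CT N (fun n => (Real.log n) ^ ε ≤ h n) : ℝ) ≤
        (CT N (fun n => n * n < N) : ℝ) + CT N (fun n => Z + R ≤ h n) := by
      exact_mod_cast h4
    linarith [EXC.ct_sq N]
  have hE : 0 < Real.exp (-(c * l ^ 2)) := Real.exp_pos _
  have hcl : c * l ^ 2 ≤ l ^ 2 / 8 := by nlinarith [sq_nonneg l]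
  -- part 1
  have p1 : √(N : ℝ) ≤ 1 / 3 * (N * Real.exp (-(c * l ^ 2))) := by
    have h3 : √(N : ℝ) = Real.exp (L / 2) := by rw [eN, Real.exp_half]
    have h4 : (3 : ℝ) ≤ Real.exp 2 := by
      have := Real.add_one_le_exp (2 : ℝ)
      linarith
    have h5 : Real.exp 2 * Real.exp (L / 2) ≤ N * Real.exp (-(c * l ^ 2)) := by
      rw [eN, ← Real.exp_add, ← Real.exp_add]
      apply Real.exp_le_exp.2
      have h6 := Real.quadratic_le_exp_of_nonneg hl0
      rw [← eL] at h6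
      nlinarith
    have h6 : 3 * Real.exp (L / 2) ≤ Real.exp 2 * Real.exp (L / 2) :=
      mul_le_mul_of_nonneg_right h4 (Real.exp_pos _).le
    rw [h3]
    linarith
  -- part 2
  have p2 : 2 * (N : ℝ) / √(Y : ℝ) ≤ 1 / 3 * (N * Real.exp (-(c * l ^ 2))) := by
    have h3 : Real.exp (l ^ 2 / 2) ≤ √(Y : ℝ) := by
      rw [Real.exp_half]
      exact Real.sqrt_le_sqrt hYl
    rw [div_le_iff₀ (lt_of_lt_of_le (Real.exp_pos _) h3)]
    have h4 : (6 : ℝ) ≤ Real.exp (-(c * l ^ 2)) * Real.exp (l ^ 2 / 2) := by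
      rw [← Real.exp_add]
      have := Real.add_one_le_exp (-(c * l ^ 2) + l ^ 2 / 2)
      linarith
    have h5 := mul_le_mul_of_nonneg_left h3 hE.le
    have h6 : (6 : ℝ) ≤ Real.exp (-(c * l ^ 2)) * √(Y : ℝ) := h4.trans h5
    have h7 := mul_le_mul_of_nonneg_left h6 hN1.le
    linarith
  -- part 3
  have p3 : 2 * (N : ℝ) * 6 ^ R * (3 * (2 / √(Z : ℝ)) ^ R) ≤
      1 / 3 * (N * Real.exp (-(c * l ^ 2))) := by
    have h3 := EXC.part3 f1 f2
    have h4 : Real.exp (-(ε / 32 * l ^ 2)) ≤ Real.exp (-(c * l ^ 2)) := by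
      apply Real.exp_le_exp.2
      have := mul_le_mul_of_nonneg_right hc1 (sq_nonneg l)
      linarith
    have h5 : 2 * (N : ℝ) * 6 ^ R * (3 * (2 / √(Z : ℝ)) ^ R) =
        N * (6 * (12 / √(Z : ℝ)) ^ R) := by
      have : (12 / √(Z : ℝ)) ^ R = 6 ^ R * (2 / √(Z : ℝ)) ^ R := by
        rw [← mul_pow]; congr 1; ring
      rw [this]; ring
    rw [h5]
    have h6 := mul_le_mul_of_nonneg_left (h3.trans
      (mul_le_mul_of_nonneg_left h4 (by norm_num : (0 : ℝ) ≤ 1 / 3))) hN1.le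
    linarith
  have h3 := mul_le_mul_of_nonneg_left hsym
    (show 0 ≤ 2 * (N : ℝ) * 6 ^ R by positivity)
  linarith

end Pool.Agent.PWR
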