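import Pool.Agent.PWR.Targets

/-!
# EXP: exponential sums
-/

namespace Pool.Agent.PWR

open Finset

namespace EXP

/-- `E t = exp (2 π i t)` -/
noncomputable def E (t : ℝ) : ℂ := Complex.exp (Complex.I * ((2 * Real.pi * t : ℝ) : ℂ))

theorem E_add (s t : ℝ) : E (s + t) = E s * E t := by
  unfold E
  rw [← Complex.exp_add]
  congr 1
  push_cast
  ring

theorem E_zero : E 0 = 1 := by
  unfold E
  simp

theorem E_int (a : ℤ) : E a = 1 := by
  unfold E
  rw [Complex.exp_eq_one_iff]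
  refine ⟨a, ?_⟩
  push_cast
  ring

theorem E_norm (t : ℝ) : ‖E t‖ = 1 := by
  unfold E
  rw [mul_comm, Complex.norm_exp_ofReal_mul_I]

theorem E_nat (n : ℕ) (t : ℝ) : E (n * t) = E t ^ n := by
  unfold E
  rw [← Complex.exp_nat_mul]
  congr 1
  push_cast
  ring

theorem E_sum {ι : Type} (s : Finset ι) (f : ι → ℝ) : E (∑ i ∈ s, f i) = ∏ i ∈ s, E (f i) := by
  classical
  induction s using Finset.induction_on with
  | empty => simp [E_zero]
  | insert a s ha ih => rw [sum_insert ha, prod_insert ha, E_add, ih]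

theorem E_sub_one (t : ℝ) (ht : |t| ≤ 1 / 2) : 4 * |t| ≤ ‖E t - 1‖ := by
  unfold E
  rw [Complex.norm_exp_I_mul_ofReal_sub_one]
  have h1 : 2 * Real.pi * t / 2 = Real.pi * t := by ring
  rw [h1, norm_mul, Real.norm_eq_abs, Real.norm_eq_abs, abs_of_pos (by norm_num : (0 : ℝ) < 2)]
  have hpi := Real.pi_pos
  have h2 : |Real.sin (Real.pi * t)| = |Real.sin (Real.pi * |t|)| := by
    rcases abs_choice t with h | h
    · rw [h]
    · rw [h, mul_neg, Real.sin_neg, abs_neg]
  have h3 : 2 / Real.pi * (Real.pi * |t|) ≤ Real.sin (Real.pi * |t|) := by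
    apply Real.mul_le_sin
    · positivity
    · nlinarith
  have h4 : 2 / Real.pi * (Real.pi * |t|) = 2 * |t| := by
    field_simp
  rw [h2]
  have h5 := le_abs_self (Real.sin (Real.pi * |t|))
  linarith

theorem geom (s W : ℝ) (N : ℕ) (hW : 0 ≤ W) (h : 1 ≤ W * |s - round s|) :
    ‖∑ n ∈ range N, E s ^ n‖ ≤ W := by
  set t : ℝ := s - round s with ht
  have h0 : 0 < |t| := by
    rcases (abs_nonneg t).eq_or_lt with h1 | h1
    · rw [← h1, mul_zero] at h
      linarith
    · exact h1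
  have h1 : E s = E t := by
    have : s = t + ((round s : ℤ) : ℝ) := by rw [ht]; ring
    conv_lhs => rw [this]
    rw [E_add, E_int, mul_one]
  have h2 : |t| ≤ 1 / 2 := abs_sub_round s
  have h3 := E_sub_one t h2
  have h4 : 0 < ‖E t - 1‖ := by linarith
  have h5 : E t ≠ 1 := by
    intro h6
    rw [h6, sub_self, norm_zero] at h4
    exact lt_irrefl _ h4
  rw [h1, geom_sum_eq h5, norm_div, div_le_iff₀ h4]
  have h6 : ‖E t ^ N - 1‖ ≤ 2 := by
    refine (norm_sub_le _ _).trans ?_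
    rw [norm_pow, E_norm, one_pow, norm_one]
    norm_num
  have h7 : W * (4 * |t|) ≤ W * ‖E t - 1‖ := mul_le_mul_of_nonneg_left h3 hW
  nlinarith

theorem cos_pow (y : ℝ) (m : ℕ) :
    ((Real.cos (Real.pi * y) ^ (2 * m) : ℝ) : ℂ) =
      ∑ j ∈ range (2 * m + 1), (((2 * m).choose j : ℝ) / 4 ^ m : ℝ) * E (((j : ℝ) - m) * y) := by
  have h1 : ((Real.cos (Real.pi * y) ^ (2 * m) : ℝ) : ℂ) =
      (E (y / 2) + E (-(y / 2))) ^ (2 * m) / 4 ^ m := by
    have h2 : ((Real.cos (Real.pi * y) : ℝ) : ℂ) = (E (y / 2) + E (-(y / 2))) / 2 := by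
      rw [Complex.ofReal_cos, Complex.cos]
      unfold E
      congr 3
      · push_cast
        ring
      · push_cast
        ring
    rw [Complex.ofReal_pow, h2, div_pow, pow_mul (2 : ℂ)]
    norm_num
  rw [h1, add_pow, sum_div]
  refine sum_congr rfl fun j hj => ?_
  have hj' : j ≤ 2 * m := by
    have := mem_range.1 hj
    omega
  rw [← E_nat, ← E_nat, ← E_add]
  have h3 : (j : ℝ) * (y / 2) + ((2 * m - j : ℕ) : ℝ) * (-(y / 2)) = ((j : ℝ) - m) * y := by
    rw [Nat.cast_sub hj']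
    push_cast
    ring
  rw [h3]
  push_cast
  ring

end EXP

open EXP in
theorem tEXP : T_EXP := by
  intro ι _ _ θ α m N W hW hyp
  classical
  -- coefficients
  set A : (ι → ℕ) → ℝ := fun J => ∏ i, ((2 * m).choose (J i) : ℝ) / 4 ^ m with hA
  set s : (ι → ℕ) → ℝ := fun J => ∑ i, ((J i : ℝ) - m) * θ i with hs
  set u : (ι → ℕ) → ℂ := fun J => E (-∑ i, ((J i : ℝ) - m) * α i) with hu
  set P : Finset (ι → ℕ) := Fintype.piFinset fun _ => range (2 * m + 1) with hP
  have hA0 : ∀ J, 0 ≤ A J := fun J => prod_nonneg fun i _ => by positivity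
  have key : ((∑ n ∈ range N, ∏ i, Real.cos (Real.pi * (n * θ i - α i)) ^ (2 * m) : ℝ) : ℂ) =
      ∑ J ∈ P, (A J : ℂ) * u J * ∑ n ∈ range N, E (s J) ^ n := by
    rw [Complex.ofReal_sum]
    have h1 : ∀ n ∈ range N, ((∏ i, Real.cos (Real.pi * (n * θ i - α i)) ^ (2 * m) : ℝ) : ℂ) =
        ∑ J ∈ P, (A J : ℂ) * u J * E (s J) ^ n := by
      intro n _
      rw [Complex.ofReal_prod]
      rw [prod_congr rfl fun i _ => cos_pow (n * θ i - α i) m]
      rw [prod_univ_sum]
      refine sum_congr rfl fun J _ => ?_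
      rw [prod_mul_distrib, ← E_sum, mul_assoc, hu, ← E_nat, ← E_add, hA]
      congr 1
      · rw [← Complex.ofReal_prod]
      · congr 1
        rw [hs, mul_sum, ← sum_neg_distrib, ← sum_add_distrib]
        refine sum_congr rfl fun i _ => ?_
        ring
    rw [sum_congr rfl h1, sum_comm]
    refine sum_congr rfl fun J _ => ?_
    rw [mul_sum]
  have hsumA : ∑ J ∈ P, A J = 1 := by
    rw [hA, hP, ← prod_univ_sum (fun _ : ι => range (2 * m + 1))
      (fun _ j => ((2 * m).choose j : ℝ) / 4 ^ m)]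
    apply prod_eq_one
    intro i _
    rw [← sum_div]
    have h1 : (∑ j ∈ range (2 * m + 1), ((2 * m).choose j : ℝ)) = 4 ^ m := by
      have h2 := Nat.sum_range_choose (2 * m)
      have h3 : ((∑ j ∈ range (2 * m + 1), (2 * m).choose j : ℕ) : ℝ) = ((2 ^ (2 * m) : ℕ) : ℝ) := by
        rw [h2]
      push_cast at h3
      rw [h3, pow_mul]
      norm_num
    rw [h1]
    exact div_self (by positivity)
  set J0 : ι → ℕ := fun _ => m with hJ0
  have hJ0P : J0 ∈ P := by
    rw [hP, Fintype.mem_piFinset]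
    intro i
    rw [mem_range]
    show m < 2 * m + 1
    omega
  have hother : ∀ J ∈ P.erase J0, ‖∑ n ∈ range N, E (s J) ^ n‖ ≤ W := by
    intro J hJ
    rw [mem_erase] at hJ
    obtain ⟨hne, hJP⟩ := hJ
    rw [hP, Fintype.mem_piFinset] at hJP
    apply geom _ _ _ hW
    have h1 := hyp (fun i => (J i : ℤ) - m) (by
      intro h2
      apply hne
      funext i
      have h3 := congrFun h2 i
      simp only [Pi.zero_apply] at h3
      rw [hJ0]
      show J i = m
      omega) (by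
      intro i
      have h2 := mem_range.1 (hJP i)
      rw [abs_le]
      constructor
      · omega
      · omega) (-round (s J))
    have h2 : ((-round (s J) : ℤ) : ℝ) + ∑ i, (((J i : ℤ) - m : ℤ) : ℝ) * θ i =
        s J - round (s J) := by
      rw [hs]
      push_cast
      ring
    rw [h2] at h1
    exact h1
  have hJ0v : (A J0 : ℂ) * u J0 * ∑ n ∈ range N, E (s J0) ^ n = ((A J0 * N : ℝ) : ℂ) := by
    have h1 : s J0 = 0 := by
      rw [hs, hJ0]
      simp
    have h2 : u J0 = 1 := by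
      rw [hu, hJ0]
      simp [E_zero]
    rw [h1, h2, E_zero]
    simp
  have hA0v : 1 / (2 * (m : ℝ) + 1) ^ Fintype.card ι ≤ A J0 := by
    have h1 : A J0 = (((2 * m).choose m : ℝ) / 4 ^ m) ^ Fintype.card ι := by
      show ∏ _i : ι, (((2 * m).choose m : ℝ) / 4 ^ m) = _
      rw [prod_const, Finset.card_univ]
    rw [h1, ← one_div_pow]
    apply pow_le_pow_left₀ (by positivity)
    rw [div_le_div_iff₀ (by positivity) (by positivity)]
    have h2 : 4 ^ m ≤ (2 * m + 1) * Nat.centralBinom m := by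
      exact Nat.four_pow_le_two_mul_add_one_mul_central_binom m
    have h3 : ((4 ^ m : ℕ) : ℝ) ≤ (((2 * m + 1) * Nat.centralBinom m : ℕ) : ℝ) := by
      exact_mod_cast h2
    rw [Nat.centralBinom] at h3
    push_cast at h3
    linarith
  set S : ℝ := ∑ n ∈ range N, ∏ i, Real.cos (Real.pi * (n * θ i - α i)) ^ (2 * m) with hS
  have h1 : ((S - A J0 * N : ℝ) : ℂ) =
      ∑ J ∈ P.erase J0, (A J : ℂ) * u J * ∑ n ∈ range N, E (s J) ^ n := by
    rw [Complex.ofReal_sub, key, ← hJ0v, ← add_sum_erase P _ hJ0P]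
    ring
  have h2 : |S - A J0 * N| ≤ W := by
    have h3 : |S - A J0 * N| = ‖((S - A J0 * N : ℝ) : ℂ)‖ := by
      rw [Complex.norm_real, Real.norm_eq_abs]
    rw [h3, h1]
    refine (norm_sum_le _ _).trans ?_
    have h4 : ∀ J ∈ P.erase J0, ‖(A J : ℂ) * u J * ∑ n ∈ range N, E (s J) ^ n‖ ≤ A J * W := by
      intro J hJ
      rw [norm_mul, norm_mul, hu, E_norm, mul_one, Complex.norm_real, Real.norm_eq_abs,
        abs_of_nonneg (hA0 J)]
      exact mul_le_mul_of_nonneg_left (hother J hJ) (hA0 J)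
    refine (sum_le_sum h4).trans ?_
    rw [← sum_mul]
    have h5 : ∑ J ∈ P.erase J0, A J ≤ 1 := by
      rw [← hsumA]
      exact sum_le_sum_of_subset_of_nonneg (erase_subset _ _) fun J _ _ => hA0 J
    calc (∑ J ∈ P.erase J0, A J) * W ≤ 1 * W := mul_le_mul_of_nonneg_right h5 hW
      _ = W := one_mul W
  have h3 := (abs_le.1 h2).1
  have h4 : (N : ℝ) / (2 * m + 1) ^ Fintype.card ι ≤ A J0 * N := by
    rw [div_eq_mul_one_div, mul_comm]
    exact mul_le_mul_of_nonneg_right hA0v (Nat.cast_nonneg N)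
  linarith

end Pool.Agent.PWR
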