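import Pool.Agent.PWR.Targets

/-!
# Hits give powerful numbers
-/

set_option autoImplicit false

namespace Pool.Agent.PWR

open Finset

namespace HLO

theorem sqfree_unique {b b' x y : ℕ} (hb : Squarefree b) (hb' : Squarefree b') (hy : 0 < y)
    (e : b * x ^ 2 = b' * y ^ 2) : b = b' := by
  have hb0 : b ≠ 0 := hb.ne_zero
  have e2 : (b * x) ^ 2 = (b * b') * y ^ 2 := by
    calc (b * x) ^ 2 = b * (b * x ^ 2) := by ring
      _ = b * (b' * y ^ 2) := by rw [e]
      _ = (b * b') * y ^ 2 := by ring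
  have hyd : y ∣ b * x := by
    rw [← Nat.pow_dvd_pow_iff (n := 2) (by norm_num), e2]
    exact Dvd.intro_left _ rfl
  obtain ⟨c, hc⟩ := hyd
  rw [hc, mul_pow, mul_comm (b * b')] at e2
  have hc2 : c ^ 2 = b * b' := Nat.eq_of_mul_eq_mul_left (by positivity) e2
  have hbc : b ∣ c := by
    rw [← hb.dvd_pow_iff_dvd (n := 2) (by norm_num), hc2]
    exact Dvd.intro _ rfl
  obtain ⟨d, rfl⟩ := hbc
  have hd : b * d ^ 2 = b' := by
    have : b * (b * d ^ 2) = b * b' := by rw [← hc2]; ring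
    exact Nat.eq_of_mul_eq_mul_left (Nat.pos_of_ne_zero hb0) this
  have hdu : IsUnit d := by
    apply hb'
    exact ⟨b, by rw [← hd]; ring⟩
  rw [Nat.isUnit_iff] at hdu
  rw [← hd, hdu]; ring

theorem sq_be (a b : ℕ) : ((a : ℝ) * be b) ^ 2 = ((a ^ 2 * b ^ 3 : ℕ) : ℝ) := by
  unfold be
  have h := Real.sq_sqrt (Nat.cast_nonneg (α := ℝ) b)
  push_cast
  have e : ((a : ℝ) * ((b : ℝ) * √(b : ℝ))) ^ 2 = (a : ℝ) ^ 2 * (b : ℝ) ^ 2 * (√(b : ℝ)) ^ 2 := by
    ring
  rw [e, h]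
  ring

theorem powerful (a b : ℕ) {p : ℕ} (hp : p.Prime) (hd : p ∣ a ^ 2 * b ^ 3) :
    p ^ 2 ∣ a ^ 2 * b ^ 3 := by
  rcases (Nat.Prime.dvd_mul hp).mp hd with h | h
  · exact Dvd.dvd.mul_right (pow_dvd_pow_of_dvd (hp.dvd_of_dvd_pow h) 2) _
  · have h1 : p ^ 3 ∣ b ^ 3 := pow_dvd_pow_of_dvd (hp.dvd_of_dvd_pow h) 3
    exact Dvd.dvd.mul_left (dvd_trans (pow_dvd_pow p (by norm_num)) h1) _

end HLO

theorem tHLO : T_HLO := by
  classical
  intro n hn T hT
  set S : Finset ℕ := (Finset.Ico (n ^ 2) ((n + 1) ^ 2)).filter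
    (fun m => 0 < m ∧ ∀ p : ℕ, p.Prime → p ∣ m → p ^ 2 ∣ m) with hS
  have hcard : h n = #S := by
    unfold h
    rw [Nat.card_coe_set_eq, ← Set.ncard_coe_finset]
    congr 1
    ext m
    simp only [hS, Set.mem_ofPred_eq, Finset.coe_filter, Finset.mem_Ico, and_assoc]
  have h1T : 1 ∉ T := by
    intro h1
    have := (hT 1 h1).1
    omega
  have hex : ∀ b : ℕ, ∃ a : ℕ, b ∈ insert 1 T → (0 < a ∧ a ^ 2 * b ^ 3 ∈ S ∧ Squarefree b) := by
    intro b
    by_cases hb : b ∈ insert 1 T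
    · rcases Finset.mem_insert.mp hb with rfl | hbT
      · refine ⟨n, fun _ => ⟨hn, ?_, squarefree_one⟩⟩
        rw [hS, Finset.mem_filter, Finset.mem_Ico]
        refine ⟨⟨by simp, ?_⟩, by positivity, fun p hp hd => HLO.powerful _ _ hp hd⟩
        have : (n + 1) ^ 2 = n ^ 2 + 2 * n + 1 := by ring
        rw [this]
        simp only [one_pow, mul_one]
        omega
      · obtain ⟨hb2, hsq, a, h1, h2⟩ := hT b hbT
        have hβ := be_pos (b := b) (by omega)
        have hn1 : (1 : ℝ) ≤ n := by exact_mod_cast hn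
        have hapos : 0 < a := by
          by_contra hle
          push Not at hle
          have h3 : (a : ℝ) ≤ 0 := by exact_mod_cast hle
          nlinarith
        obtain ⟨c, rfl⟩ := Int.eq_ofNat_of_zero_le hapos.le
        have hc : 0 < c := by exact_mod_cast hapos
        push_cast at h1 h2
        refine ⟨c, fun _ => ⟨hc, ?_, hsq⟩⟩
        have hlow : n ^ 2 ≤ c ^ 2 * b ^ 3 := by
          have : ((n : ℕ) : ℝ) ^ 2 ≤ ((c ^ 2 * b ^ 3 : ℕ) : ℝ) := by
            rw [← HLO.sq_be]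
            exact pow_le_pow_left₀ (by linarith) h1 2
          exact_mod_cast this
        have hup : c ^ 2 * b ^ 3 < (n + 1) ^ 2 := by
          have : ((c ^ 2 * b ^ 3 : ℕ) : ℝ) < ((n + 1 : ℕ) : ℝ) ^ 2 := by
            rw [← HLO.sq_be]
            push_cast
            exact pow_lt_pow_left₀ h2 (by positivity) (by norm_num)
          exact_mod_cast this
        rw [hS, Finset.mem_filter, Finset.mem_Ico]
        have hb0 : 0 < b := by omega
        exact ⟨⟨hlow, hup⟩, by positivity, fun p hp hd => HLO.powerful _ _ hp hd⟩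
    · exact ⟨0, fun h => absurd h hb⟩
  choose f hf using hex
  have hinj : Set.InjOn (fun b => f b ^ 2 * b ^ 3) ((insert 1 T : Finset ℕ) : Set ℕ) := by
    intro b hb b' hb' e
    obtain ⟨ha, _, hs⟩ := hf b hb
    obtain ⟨ha', _, hs'⟩ := hf b' hb'
    have hb0 : 0 < b' := Nat.pos_of_ne_zero hs'.ne_zero
    have e' : b * (f b * b) ^ 2 = b' * (f b' * b') ^ 2 := by
      have e1 : f b ^ 2 * b ^ 3 = f b' ^ 2 * b' ^ 3 := e
      calc b * (f b * b) ^ 2 = f b ^ 2 * b ^ 3 := by ring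
        _ = f b' ^ 2 * b' ^ 3 := e1
        _ = b' * (f b' * b') ^ 2 := by ring
    exact HLO.sqfree_unique hs hs' (by positivity) e'
  have hmap : ∀ b ∈ insert 1 T, f b ^ 2 * b ^ 3 ∈ S := fun b hb => (hf b hb).2.1
  have := Finset.card_le_card_of_injOn (fun b => f b ^ 2 * b ^ 3) hmap hinj
  rw [Finset.card_insert_of_notMem h1T] at this
  rw [hcard]
  exact this

end Pool.Agent.PWR
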