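import Pool.Agent.PWR.Targets

/-!
# Powerful numbers give hits
-/

set_option autoImplicit false

namespace Pool.Agent.PWR

open Finset

namespace HUP

theorem decomp {m : ℕ} (hp : ∀ p : ℕ, p.Prime → p ∣ m → p ^ 2 ∣ m) :
    ∃ a b : ℕ, m = a ^ 2 * b ^ 3 ∧ Squarefree b := by
  obtain ⟨b, s, hs, hb⟩ := Nat.sq_mul_squarefree m
  have hdvd : b ∣ s := by
    rw [← Nat.prod_primeFactors_of_squarefree hb]
    apply Finset.prod_primes_dvd
    · intro p hpb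
      exact (Nat.prime_of_mem_primeFactors hpb).prime
    · intro p hpb
      have pp := Nat.prime_of_mem_primeFactors hpb
      have hpdb : p ∣ b := Nat.dvd_of_mem_primeFactors hpb
      by_contra hns
      have h1 : p ^ 2 ∣ s ^ 2 * b := by
        rw [hs]
        exact hp p pp (by rw [← hs]; exact Dvd.dvd.mul_left hpdb _)
      have hc : Nat.Coprime (p ^ 2) (s ^ 2) :=
        Nat.Coprime.pow 2 2 ((Nat.Prime.coprime_iff_not_dvd pp).mpr hns)
      have h2 : p ^ 2 ∣ b := hc.dvd_of_dvd_mul_left h1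
      have h3 : p * p ∣ b := by rw [← pow_two]; exact h2
      exact pp.one_lt.ne' (Nat.isUnit_iff.mp (hb p h3))
  obtain ⟨a, ha⟩ := hdvd
  refine ⟨a, b, ?_, hb⟩
  rw [← hs, ha]
  ring

theorem sq_be (a b : ℕ) : ((a : ℝ) * be b) ^ 2 = ((a ^ 2 * b ^ 3 : ℕ) : ℝ) := by
  unfold be
  have h := Real.sq_sqrt (Nat.cast_nonneg (α := ℝ) b)
  push_cast
  have e : ((a : ℝ) * ((b : ℝ) * √(b : ℝ))) ^ 2 = (a : ℝ) ^ 2 * (b : ℝ) ^ 2 * (√(b : ℝ)) ^ 2 := by
    ring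
  rw [e, h]
  ring

theorem be_nonneg (b : ℕ) : 0 ≤ be b := by
  unfold be
  positivity

theorem bounds {n a b : ℕ} (h1 : n ^ 2 ≤ a ^ 2 * b ^ 3) (h2 : a ^ 2 * b ^ 3 < (n + 1) ^ 2) :
    (n : ℝ) ≤ a * be b ∧ (a : ℝ) * be b < n + 1 := by
  have hnn : (0 : ℝ) ≤ a * be b := mul_nonneg (Nat.cast_nonneg a) (be_nonneg b)
  have h1' : (n : ℝ) ^ 2 ≤ ((a : ℝ) * be b) ^ 2 := by
    rw [sq_be]; exact_mod_cast h1
  have h2' : ((a : ℝ) * be b) ^ 2 < ((n : ℝ) + 1) ^ 2 := by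
    rw [sq_be]; exact_mod_cast h2
  constructor
  · exact (pow_le_pow_iff_left₀ (Nat.cast_nonneg n) hnn two_ne_zero).mp h1'
  · exact (pow_lt_pow_iff_left₀ hnn (by positivity) two_ne_zero).mp h2'

theorem uniq {n a a' b : ℕ} (hb : 1 ≤ b) (h1 : (n : ℝ) ≤ a * be b) (h2 : (a' : ℝ) * be b < n + 1) :
    a' ≤ a := by
  by_contra h
  have h3 : a + 1 ≤ a' := by omega
  have h4 : (a : ℝ) + 1 ≤ a' := by exact_mod_cast h3
  have h5 := one_le_be hb
  nlinarith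

end HUP

theorem tHUP : T_HUP := by
  classical
  intro n Z R hZR
  set S : Finset ℕ := (Finset.Ico (n ^ 2) ((n + 1) ^ 2)).filter
    (fun m => 0 < m ∧ ∀ p : ℕ, p.Prime → p ∣ m → p ^ 2 ∣ m) with hS
  have hcard : h n = #S := by
    unfold h
    rw [Nat.card_coe_set_eq, ← Set.ncard_coe_finset]
    congr 1
    ext m
    simp only [hS, Set.mem_ofPred_eq, Finset.coe_filter, Finset.mem_Ico, and_assoc]
  have hex : ∀ m : ℕ, ∃ b : ℕ, m ∈ S → ∃ a : ℕ, m = a ^ 2 * b ^ 3 ∧ Squarefree b := by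
    intro m
    by_cases hm : m ∈ S
    · rw [hS, Finset.mem_filter] at hm
      obtain ⟨a, b, hab, hb⟩ := HUP.decomp hm.2.2
      exact ⟨b, fun _ => ⟨a, hab, hb⟩⟩
    · exact ⟨0, fun h => absurd h hm⟩
  choose f hf using hex
  have key : ∀ m ∈ S, 1 ≤ f m ∧ Squarefree (f m) ∧ ∃ a : ℕ, m = a ^ 2 * f m ^ 3 ∧
      (n : ℝ) ≤ a * be (f m) ∧ (a : ℝ) * be (f m) < n + 1 := by
    intro m hm
    obtain ⟨a, hab, hb⟩ := hf m hm
    have hm' := hm
    rw [hS, Finset.mem_filter, Finset.mem_Ico] at hm'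
    refine ⟨Nat.one_le_iff_ne_zero.mpr hb.ne_zero, hb, a, hab, ?_⟩
    exact HUP.bounds (hab ▸ hm'.1.1) (hab ▸ hm'.1.2)
  have hinj : Set.InjOn f (S : Set ℕ) := by
    intro m hm m' hm' hmm
    obtain ⟨hb, _, a, ha, h1, h2⟩ := key m hm
    obtain ⟨hb', _, a', ha', h1', h2'⟩ := key m' hm'
    rw [← hmm] at ha' h1' h2'
    have e : a = a' := le_antisymm (HUP.uniq hb h1' h2) (HUP.uniq hb h1 h2')
    rw [ha, ha', e]
  set B : Finset ℕ := S.image f with hB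
  have hBc : #B = h n := by
    rw [hcard, hB, Finset.card_image_of_injOn hinj]
  have hle : #(B.filter (· ≤ Z)) ≤ Z := by
    have : B.filter (· ≤ Z) ⊆ Finset.Icc 1 Z := by
      intro b hb
      rw [Finset.mem_filter] at hb
      obtain ⟨m, hm, rfl⟩ := Finset.mem_image.mp hb.1
      exact Finset.mem_Icc.mpr ⟨(key m hm).1, hb.2⟩
    refine (Finset.card_le_card this).trans ?_
    rw [Nat.card_Icc]
    omega
  have hsum : #(B.filter (· ≤ Z)) + #(B.filter (fun b => ¬ b ≤ Z)) = #B :=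
    Finset.card_filter_add_card_filter_not _
  have hge : R ≤ #(B.filter (fun b => ¬ b ≤ Z)) := by omega
  obtain ⟨T, hT, hTc⟩ := Finset.exists_subset_card_eq hge
  refine ⟨T, hTc, ?_⟩
  intro b hb
  have hb' := Finset.mem_filter.mp (hT hb)
  obtain ⟨m, hm, rfl⟩ := Finset.mem_image.mp hb'.1
  obtain ⟨h1, h2, a, ha, h3, h4⟩ := key m hm
  refine ⟨not_le.mp hb'.2, h2, (a : ℤ), ?_, ?_⟩
  · exact_mod_cast h3
  · exact_mod_cast h4

end Pool.Agent.PWR
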