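import Pool.Agent.PWR.Targets

/-!
# PWR: target KRO (effective Kronecker theorem)
-/

namespace Pool.Agent.PWR

open Finset

namespace KRO

lemma cos_bound (y η : ℝ) (hη : 0 ≤ η) (h : ∀ a : ℤ, η ≤ |y - a|) :
    Real.cos (Real.pi * y) ^ 2 ≤ Real.exp (-(4 * η ^ 2)) := by
  set z := y - round y with hz
  have h1 : |z| ≤ 1 / 2 := abs_sub_round y
  have h2 : η ≤ |z| := h (round y)
  have hpi := Real.pi_pos
  have h3 : 2 * |z| ≤ Real.sin (Real.pi * |z|) := by
    have h4 := Real.mul_le_sin (x := Real.pi * |z|) (by positivity)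
      (by nlinarith)
    have h5 : 2 / Real.pi * (Real.pi * |z|) = 2 * |z| := by
      field_simp
    rwa [h5] at h4
  have h4 : Real.sin (Real.pi * y) ^ 2 = Real.sin (Real.pi * |z|) ^ 2 := by
    have e1 : Real.sin (Real.pi * z) ^ 2 = Real.sin (Real.pi * y) ^ 2 := by
      have e2 : Real.pi * z = Real.pi * y - round y * Real.pi := by rw [hz]; ring
      rw [e2, Real.sin_sub_int_mul_pi]
      rw [mul_pow, ← zpow_natCast, ← zpow_mul, mul_comm (round y), zpow_mul]
      norm_num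
    rcases abs_cases z with ⟨h6, -⟩ | ⟨h6, -⟩
    · rw [h6, e1]
    · rw [h6, mul_neg, Real.sin_neg, neg_sq, e1]
  have h5 : (2 * η) ^ 2 ≤ Real.sin (Real.pi * y) ^ 2 := by
    rw [h4]
    exact pow_le_pow_left₀ (by positivity) (by linarith) 2
  have h6 := Real.sin_sq_add_cos_sq (Real.pi * y)
  have h7 := Real.add_one_le_exp (-(4 * η ^ 2))
  nlinarith

end KRO

theorem tKRO (h1 : T_EXP) : T_KRO := by
  intro ι _ _ θ α δ m N W hW hδ hθ hc hm hN
  by_contra hcon
  push Not at hcon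
  have hE := h1 ι θ α m N W hW hc
  have hb : ∀ n ∈ range N, ∏ i, Real.cos (Real.pi * (n * θ i - α i)) ^ (2 * m) ≤
      Real.exp (-(m * δ ^ 2 / 4)) := by
    intro n hn
    obtain ⟨i, hi⟩ := hcon n (Finset.mem_range.1 hn)
    have hθi := hθ i
    have h2 := KRO.cos_bound (n * θ i - α i) (θ i / 4) (by linarith [hθi.1]) hi
    have h3 : Real.cos (Real.pi * (n * θ i - α i)) ^ (2 * m) ≤ Real.exp (-(m * δ ^ 2 / 4)) := by
      rw [pow_mul]
      calc (Real.cos (Real.pi * (n * θ i - α i)) ^ 2) ^ m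
          ≤ (Real.exp (-(4 * (θ i / 4) ^ 2))) ^ m := pow_le_pow_left₀ (sq_nonneg _) h2 m
        _ = Real.exp (m * (-(4 * (θ i / 4) ^ 2))) := (Real.exp_nat_mul _ m).symm
        _ ≤ Real.exp (-(m * δ ^ 2 / 4)) := by
            apply Real.exp_le_exp.2
            have h4 : δ ^ 2 ≤ θ i ^ 2 := pow_le_pow_left₀ hδ.le hθi.1 2
            have h5 : (0 : ℝ) ≤ m := Nat.cast_nonneg m
            nlinarith
    rw [← Finset.mul_prod_erase univ _ (Finset.mem_univ i)]
    have h4 : ∏ j ∈ univ.erase i, Real.cos (Real.pi * (n * θ j - α j)) ^ (2 * m) ≤ 1 := by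
      refine Finset.prod_le_one (fun j _ => ?_) (fun j _ => ?_)
      · rw [pow_mul]; positivity
      · rw [pow_mul]
        refine pow_le_one₀ (sq_nonneg _) ?_
        have := Real.sin_sq_add_cos_sq (Real.pi * (n * θ j - α j))
        nlinarith [sq_nonneg (Real.sin (Real.pi * (n * θ j - α j)))]
    have h5 : 0 ≤ Real.cos (Real.pi * (n * θ i - α i)) ^ (2 * m) := by
      rw [pow_mul]; positivity
    calc _ ≤ Real.cos (Real.pi * (n * θ i - α i)) ^ (2 * m) * 1 :=
          mul_le_mul_of_nonneg_left h4 h5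
      _ ≤ _ := by rw [mul_one]; exact h3
  have hs := Finset.sum_le_sum hb
  rw [Finset.sum_const, Finset.card_range, nsmul_eq_mul] at hs
  have h2 := hE.trans hs
  have hk : (0 : ℝ) < (2 * m + 1 : ℝ) ^ Fintype.card ι := by positivity
  have h3 : Real.exp (-(m * δ ^ 2 / 4)) ≤ 1 / 2 / (2 * m + 1 : ℝ) ^ Fintype.card ι := by
    rw [le_div_iff₀ hk, mul_comm]
    exact hm
  have h4 : (0 : ℝ) ≤ N := Nat.cast_nonneg N
  have h5 := mul_le_mul_of_nonneg_left h3 h4
  have h6 : (N : ℝ) / (2 * m + 1 : ℝ) ^ Fintype.card ι =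
      2 * (N * (1 / 2 / (2 * m + 1 : ℝ) ^ Fintype.card ι)) := by
    field_simp
  have h7 : (N : ℝ) / (2 * m + 1 : ℝ) ^ Fintype.card ι ≤ 2 * W := by linarith
  rw [div_le_iff₀ hk] at h7
  linarith

end Pool.Agent.PWR
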