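import Pool.Agent.PWR.Targets

/-!
# KRY: simultaneous inhomogeneous approximation by the numbers `b^(-3/2)`
-/

namespace Pool.Agent.PWR

open Finset

namespace KRY

theorem be_mono {a b : ℕ} (hab : a ≤ b) : be a ≤ be b := by
  have h1 : (a : ℝ) ≤ b := by exact_mod_cast hab
  unfold be
  exact mul_le_mul h1 (Real.sqrt_le_sqrt h1) (Real.sqrt_nonneg _) (Nat.cast_nonneg _)

theorem th_anti {a b : ℕ} (ha : 1 ≤ a) (hab : a ≤ b) : th b ≤ th a := by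
  unfold th
  exact one_div_le_one_div_of_le (be_pos ha) (be_mono hab)

theorem th_sq {b : ℕ} (hb : 1 ≤ b) : th b ^ 2 * (b : ℝ) ^ 3 = 1 := by
  have h1 : be b ^ 2 = (b : ℝ) ^ 3 := by
    unfold be
    rw [mul_pow, Real.sq_sqrt (Nat.cast_nonneg _)]
    ring
  rw [← h1, ← mul_pow, th_mul_be hb, one_pow]

/-- `Y^(5k) exp(-Y/4) ≤ 1/2`. -/
theorem exp_bound {k Y : ℕ} (hk : 1 ≤ k) (hY : 1000 * k ^ 2 ≤ Y) :
    (Y : ℝ) ^ (5 * k) * Real.exp (-((Y : ℝ) / 4)) ≤ 1 / 2 := by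
  have hkR : (1 : ℝ) ≤ k := by exact_mod_cast hk
  have hYR : 1000 * (k : ℝ) ^ 2 ≤ Y := by exact_mod_cast hY
  have hY1 : (1000 : ℝ) ≤ Y := by nlinarith
  have hY0 : (0 : ℝ) < Y := by linarith
  set s : ℝ := √(Y : ℝ) with hs
  have hs0 : 0 < s := Real.sqrt_pos.mpr hY0
  have hs2 : s ^ 2 = Y := Real.sq_sqrt hY0.le
  have hs31 : 31 * (k : ℝ) ≤ s := by
    apply Real.le_sqrt_of_sq_le
    nlinarith
  have hs1 : 31 ≤ s := by linarith
  have hlog : Real.log (Y : ℝ) = 2 * Real.log s := by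
    rw [← hs2, Real.log_pow]
    norm_num
  have hlog2 : Real.log s ≤ s / 4 + 1 := by
    have h1 := Real.log_le_sub_one_of_pos (show 0 < s / 4 by positivity)
    rw [Real.log_div hs0.ne' (by norm_num)] at h1
    have h4 : Real.log 4 = 2 * Real.log 2 := by
      rw [show (4 : ℝ) = 2 ^ 2 by norm_num, Real.log_pow]
      norm_num
    have h2 := Real.log_two_lt_d9
    linarith
  have hlog0 : 0 ≤ Real.log s := Real.log_nonneg (by linarith)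
  have hmain : (5 * k : ℝ) * Real.log (Y : ℝ) ≤ (Y : ℝ) / 8 := by
    rw [hlog, ← hs2]
    have h1 : (k : ℝ) * Real.log s ≤ (s / 31) * (s / 4 + 1) := by
      apply mul_le_mul _ hlog2 hlog0 (by positivity)
      linarith
    nlinarith
  have hpow : (Y : ℝ) ^ (5 * k) = Real.exp ((5 * k : ℝ) * Real.log (Y : ℝ)) := by
    rw [mul_comm (5 * k : ℝ) (Real.log (Y : ℝ)), ← Real.rpow_def_of_pos hY0,
      ← Real.rpow_natCast]
    push_cast
    rfl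
  rw [hpow, ← Real.exp_add]
  have hhalf : (1 : ℝ) / 2 = Real.exp (-Real.log 2) := by
    rw [Real.exp_neg, Real.exp_log (by norm_num)]
    norm_num
  rw [hhalf]
  apply Real.exp_le_exp.mpr
  have h2 := Real.log_two_lt_d9
  linarith

theorem pow_bound {k Y : ℕ} (hk : 1 ≤ k) (hY : 1000 * k ^ 2 ≤ Y) :
    (2 * ((Y ^ 4 : ℕ) : ℝ) + 1) ^ k ≤ (Y : ℝ) ^ (5 * k) := by
  have hkR : (1 : ℝ) ≤ k := by exact_mod_cast hk
  have hYR : 1000 * (k : ℝ) ^ 2 ≤ Y := by exact_mod_cast hY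
  have hY1 : (1000 : ℝ) ≤ Y := by nlinarith
  rw [pow_mul]
  apply pow_le_pow_left₀ (by positivity)
  push_cast
  have h1 : (1 : ℝ) ≤ (Y : ℝ) ^ 4 := one_le_pow₀ (by linarith)
  have h2 : (Y : ℝ) ^ 5 = Y * (Y : ℝ) ^ 4 := by ring
  rw [h2]
  nlinarith

theorem prod_bound {k Y : ℕ} {T : Finset ℕ} (hT : #T = k) (hb : ∀ b ∈ T, b ≤ Y) :
    ∏ b ∈ T, (b : ℝ) ^ 2 ≤ (Y : ℝ) ^ (2 * k) := by
  rw [pow_mul, ← hT]
  have h1 := Finset.prod_le_prod (s := T) (f := fun b : ℕ => (b : ℝ) ^ 2)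
    (g := fun _ => (Y : ℝ) ^ 2) (fun i _ => by positivity) (fun i hi => by
      have : (i : ℝ) ≤ Y := by exact_mod_cast hb i hi
      exact pow_le_pow_left₀ (Nat.cast_nonneg _) this 2)
  simpa using h1

theorem exponent {k : ℕ} (hk : 1 ≤ k) : (2 * k + 5) * 2 ^ k + 5 * k + 1 ≤ 10 * k * 2 ^ k := by
  have h2 : 2 ≤ 2 ^ k := by
    calc 2 = 2 ^ 1 := by norm_num
      _ ≤ 2 ^ k := Nat.pow_le_pow_right (by norm_num) hk
  have h3 : 5 * k + 1 ≤ 3 * k * 2 ^ k := by nlinarith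
  have h4 : 5 * 2 ^ k ≤ 5 * k * 2 ^ k := by nlinarith
  nlinarith

theorem final_bound {k Y : ℕ} (hk : 1 ≤ k) (hY : 1000 * k ^ 2 ≤ Y) {T : Finset ℕ}
    (hT : #T = k) (hb : ∀ b ∈ T, 2 ≤ b ∧ b ≤ Y) :
    2 * ((∏ b ∈ T, (b : ℝ) ^ 2) * (2 * ((Y ^ 4 : ℕ) : ℝ) * #T + 2)) ^ (2 ^ #T) *
      (2 * ((Y ^ 4 : ℕ) : ℝ) + 1) ^ k < ((Y ^ (10 * k * 2 ^ k) : ℕ) : ℝ) := by
  have hkR : (1 : ℝ) ≤ k := by exact_mod_cast hk
  have hYR : 1000 * (k : ℝ) ^ 2 ≤ Y := by exact_mod_cast hY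
  have hY1 : (1000 : ℝ) ≤ Y := by nlinarith
  have hP := prod_bound hT (fun b h => (hb b h).2)
  have hP0 : 0 < ∏ b ∈ T, (b : ℝ) ^ 2 := by
    apply Finset.prod_pos
    intro b h
    have : 0 < b := by have := (hb b h).1; omega
    positivity
  rw [hT]
  have hH : (∏ b ∈ T, (b : ℝ) ^ 2) * (2 * ((Y ^ 4 : ℕ) : ℝ) * k + 2) ≤
      (Y : ℝ) ^ (2 * k + 5) := by
    rw [pow_add]
    apply mul_le_mul hP _ (by positivity) (by positivity)
    push_cast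
    have h1 : (1 : ℝ) ≤ (Y : ℝ) ^ 4 := one_le_pow₀ (by linarith)
    have h2 : (Y : ℝ) ^ 5 = Y * (Y : ℝ) ^ 4 := by ring
    rw [h2]
    have h3 : 4 * (k : ℝ) ≤ Y := by nlinarith
    have h4 : 4 * (k : ℝ) * (Y : ℝ) ^ 4 ≤ Y * (Y : ℝ) ^ 4 :=
      mul_le_mul_of_nonneg_right h3 (by positivity)
    have h5 : (1 : ℝ) ≤ k * (Y : ℝ) ^ 4 := by nlinarith
    nlinarith
  set H := (∏ b ∈ T, (b : ℝ) ^ 2) * (2 * ((Y ^ 4 : ℕ) : ℝ) * k + 2) with hHdef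
  have hH0 : 0 < H := by
    rw [hHdef]
    positivity
  have hW : H ^ (2 ^ k) ≤ (Y : ℝ) ^ ((2 * k + 5) * 2 ^ k) := by
    rw [pow_mul]
    exact pow_le_pow_left₀ hH0.le hH _
  have hm := pow_bound hk hY
  have hm0 : 0 < (2 * ((Y ^ 4 : ℕ) : ℝ) + 1) ^ k := by positivity
  have hW0 : 0 < H ^ (2 ^ k) := by positivity
  calc 2 * H ^ (2 ^ k) * (2 * ((Y ^ 4 : ℕ) : ℝ) + 1) ^ k
      < (Y : ℝ) * (H ^ (2 ^ k) * (2 * ((Y ^ 4 : ℕ) : ℝ) + 1) ^ k) := by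
        have : 0 < H ^ (2 ^ k) * (2 * ((Y ^ 4 : ℕ) : ℝ) + 1) ^ k := mul_pos hW0 hm0
        nlinarith
    _ ≤ (Y : ℝ) * ((Y : ℝ) ^ ((2 * k + 5) * 2 ^ k) * (Y : ℝ) ^ (5 * k)) := by
        apply mul_le_mul_of_nonneg_left _ (by positivity)
        exact mul_le_mul hW hm hm0.le (by positivity)
    _ = (Y : ℝ) ^ ((2 * k + 5) * 2 ^ k + 5 * k + 1) := by ring
    _ ≤ (Y : ℝ) ^ (10 * k * 2 ^ k) := pow_le_pow_right₀ (by linarith) (exponent hk)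
    _ = ((Y ^ (10 * k * 2 ^ k) : ℕ) : ℝ) := by push_cast; rfl

end KRY

open KRY in
theorem tKRY (h1 : T_KRO) (h2 : T_NRM) : T_KRY := by
  intro k Y hk hY T hT hTb α
  have hk2 : 1 ≤ k ^ 2 := Nat.one_le_pow _ _ hk
  have hY1 : 1 ≤ Y := by omega
  have hm1 : 1 ≤ Y ^ 4 := Nat.one_le_pow _ _ hY1
  have hcard : Fintype.card T = k := by simpa using hT
  obtain ⟨n, hn, hna⟩ := h1 T (fun i => th i) (fun i => α i) (th Y) (Y ^ 4)
    (Y ^ (10 * k * 2 ^ k))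
    (((∏ b ∈ T, (b : ℝ) ^ 2) * (2 * ((Y ^ 4 : ℕ) : ℝ) * #T + 2)) ^ (2 ^ #T))
    (by positivity) (th_pos hY1)
    (fun i => ⟨th_anti (by have := (hTb i i.2).1; omega) (hTb i i.2).2.1,
      th_le_one (by have := (hTb i i.2).1; omega)⟩)
    (by
      intro c hc hcm c0
      classical
      let c' : ℕ → ℤ := fun b => if h : b ∈ T then c ⟨b, h⟩ else 0
      have hc' : ∀ i : T, c' i = c i := by
        intro i
        simp [c']
      have hne : ∃ b ∈ T, c' b ≠ 0 := by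
        by_contra hcon
        push Not at hcon
        apply hc
        funext i
        rw [← hc' i, hcon i i.2]
        rfl
      have hle : ∀ b ∈ T, |c' b| ≤ ((Y ^ 4 : ℕ) : ℤ) := by
        intro b hb
        have := hcm ⟨b, hb⟩
        rw [← hc' ⟨b, hb⟩] at this
        exact this
      have key := h2 T (fun b hb => ⟨(hTb b hb).1, (hTb b hb).2.2⟩) (Y ^ 4) hm1 c' hle hne c0
      have hsum : ∑ b ∈ T, (c' b : ℝ) * th b = ∑ i : T, (c i : ℝ) * th i := by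
        rw [← Finset.sum_coe_sort T]
        apply Finset.sum_congr rfl
        intro i _
        rw [hc' i]
      rw [hsum] at key
      exact key)
    (by
      rw [hcard]
      have e1 : ((Y ^ 4 : ℕ) : ℝ) * th Y ^ 2 / 4 = (Y : ℝ) / 4 := by
        have := th_sq hY1
        push_cast
        have e2 : (Y : ℝ) ^ 4 * th Y ^ 2 = Y * (th Y ^ 2 * (Y : ℝ) ^ 3) := by ring
        rw [e2, this, mul_one]
      rw [e1]
      refine le_trans ?_ (exp_bound hk hY)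
      exact mul_le_mul_of_nonneg_right (pow_bound hk hY) (Real.exp_pos _).le)
    (by
      rw [hcard]
      exact final_bound hk hY hT (fun b hb => ⟨(hTb b hb).1, (hTb b hb).2.1⟩))
  exact ⟨n, hn, fun b hb => hna ⟨b, hb⟩⟩

end Pool.Agent.PWR
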