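import Pool.Agent.PWR.Targets

/-!
# PWR, target `T_LIN`: square roots of squarefree numbers are linearly independent

Trace argument in the number field generated by the square roots.
-/

namespace Pool.Agent.PWR

open Finset

namespace LIN

theorem eq_of_isSquare_mul {a b : ℕ} (ha : Squarefree a) (hb : Squarefree b)
    (h : IsSquare (a * b)) : a = b := by
  obtain ⟨w, hw⟩ := h
  have h1 : a ∣ w := by
    rw [← ha.dvd_pow_iff_dvd two_ne_zero]
    exact ⟨b, by rw [pow_two, ← hw]⟩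
  obtain ⟨k, rfl⟩ := h1
  have ha0 : a ≠ 0 := ha.ne_zero
  have h2 : b = a * (k * k) := by
    have e : a * b = a * (a * (k * k)) := by rw [hw]; ring
    exact Nat.eq_of_mul_eq_mul_left (Nat.pos_of_ne_zero ha0) e
  have h3 : IsUnit k := hb k ⟨a, by rw [h2]; ring⟩
  rw [Nat.isUnit_iff] at h3
  subst h3
  simpa using h2.symm

theorem trace_zero (L : IntermediateField ℚ ℝ) [FiniteDimensional ℚ L] (y : L) (c : ℕ)
    (hc : ¬ IsSquare c) (hy : (y : ℝ) ^ 2 = c) : Algebra.trace ℚ L y = 0 := by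
  have hirr : Irreducible (Polynomial.X ^ 2 - Polynomial.C (c : ℚ)) := by
    apply X_pow_sub_C_irreducible_of_prime Nat.prime_two
    intro b hb
    apply hc
    rw [← Rat.isSquare_natCast_iff]
    exact ⟨b, by rw [← hb, pow_two]⟩
  have hmin : Polynomial.X ^ 2 - Polynomial.C (c : ℚ) = minpoly ℚ y := by
    apply minpoly.eq_of_irreducible_of_monic hirr
    · apply Subtype.ext
      simp [hy]
    · exact Polynomial.monic_X_pow_sub_C _ two_ne_zero
  rw [trace_eq_finrank_mul_minpoly_nextCoeff, ← hmin]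
  have h0 : (Polynomial.X ^ 2 - Polynomial.C (c : ℚ)).nextCoeff = 0 := by
    rw [Polynomial.nextCoeff_of_natDegree_pos (by rw [Polynomial.natDegree_X_pow_sub_C]; norm_num),
      Polynomial.natDegree_X_pow_sub_C]
    simp [Polynomial.coeff_X_pow]
  rw [h0, neg_zero, mul_zero]

theorem main (T : Finset ℕ) (hT : ∀ b ∈ T, Squarefree b) (v : ℕ → ℤ)
    (h : ∑ b ∈ T, (v b : ℝ) * √(b : ℝ) = 0) : ∀ b ∈ T, v b = 0 := by
  intro b0 hb0
  set S : Set ℝ := (fun b : ℕ => √(b : ℝ)) '' (T : Set ℕ) with hS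
  have hfin : Finite S := (T.finite_toSet.image _)
  have hint : ∀ x ∈ S, IsIntegral ℚ x := by
    rintro x ⟨b, -, rfl⟩
    apply IsIntegral.of_pow two_pos
    rw [Real.sq_sqrt (Nat.cast_nonneg b)]
    exact isIntegral_algebraMap (R := ℚ) (A := ℝ) (x := (b : ℚ)) |> (by simpa using ·)
  set L := IntermediateField.adjoin ℚ S with hL
  have : FiniteDimensional ℚ L := IntermediateField.finiteDimensional_adjoin hint
  have hmem : ∀ b ∈ T, √(b : ℝ) ∈ L := fun b hb =>
    IntermediateField.subset_adjoin ℚ S ⟨b, hb, rfl⟩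
  let y : ℕ → L := fun b => if hb : b ∈ T then ⟨√(b : ℝ), hmem b hb⟩ * ⟨√(b0 : ℝ), hmem b0 hb0⟩
    else 0
  have hy : ∀ b ∈ T, ((y b : L) : ℝ) = √(b : ℝ) * √(b0 : ℝ) := by
    intro b hb
    simp [y, hb]
  have hrel : ∑ b ∈ T, (v b : ℚ) • y b = 0 := by
    apply Subtype.ext
    have e1 : ((∑ b ∈ T, (v b : ℚ) • y b : L) : ℝ) = ∑ b ∈ T, (v b : ℝ) * ((y b : L) : ℝ) := by
      rw [show ((∑ b ∈ T, (v b : ℚ) • y b : L) : ℝ) =
        algebraMap L ℝ (∑ b ∈ T, (v b : ℚ) • y b) from rfl, map_sum]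
      apply Finset.sum_congr rfl
      intro b _
      rw [show algebraMap L ℝ ((v b : ℚ) • y b) = (v b : ℚ) • ((y b : L) : ℝ) from rfl,
        Algebra.smul_def]
      simp
    rw [e1, Finset.sum_congr rfl (fun b hb => by rw [hy b hb, ← mul_assoc]), ← Finset.sum_mul, h,
      zero_mul]
    rfl
  have htr := congrArg (Algebra.trace ℚ L) hrel
  rw [map_sum, map_zero] at htr
  rw [Finset.sum_eq_single_of_mem b0 hb0] at htr
  · have hb00 : (b0 : ℚ) ≠ 0 := by
      exact_mod_cast (hT b0 hb0).ne_zero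
    have e2 : y b0 = algebraMap ℚ L (b0 : ℚ) := by
      apply Subtype.ext
      rw [hy b0 hb0, Real.mul_self_sqrt (Nat.cast_nonneg b0)]
      simp
    rw [map_smul, e2, Algebra.trace_algebraMap, smul_eq_mul, nsmul_eq_mul] at htr
    have hf : (Module.finrank ℚ L : ℚ) ≠ 0 := by
      exact_mod_cast (Module.finrank_pos (R := ℚ) (M := L)).ne'
    have e3 : (v b0 : ℚ) = 0 := by
      rcases mul_eq_zero.mp htr with h1 | h1
      · exact h1
      · rcases mul_eq_zero.mp h1 with h2 | h2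
        · exact absurd h2 hf
        · exact absurd h2 hb00
    exact_mod_cast e3
  · intro b hb hne
    rw [map_smul, trace_zero L (y b) (b * b0), smul_zero]
    · intro hsq
      exact hne (eq_of_isSquare_mul (hT b hb) (hT b0 hb0) hsq)
    · rw [hy b hb, mul_pow, Real.sq_sqrt (Nat.cast_nonneg b), Real.sq_sqrt (Nat.cast_nonneg b0)]
      push_cast
      ring

end LIN

theorem tLIN : T_LIN := by
  intro T hT u u0 h
  have h1T : (1 : ℕ) ∉ T := fun h1 => by
    have := (hT 1 h1).1
    omega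
  set v : ℕ → ℤ := fun b => if b = 1 then u0 else u b with hv
  have hvT : ∀ b ∈ T, v b = u b := by
    intro b hb
    have : b ≠ 1 := fun e => h1T (e ▸ hb)
    simp [hv, this]
  have h2 : ∑ b ∈ insert 1 T, (v b : ℝ) * √(b : ℝ) = 0 := by
    rw [Finset.sum_insert h1T]
    rw [Finset.sum_congr rfl (fun b hb => by rw [hvT b hb])]
    have e : (v 1 : ℝ) * √((1 : ℕ) : ℝ) = u0 := by simp [hv]
    rw [e]
    exact h
  have h3 := LIN.main (insert 1 T) (by
    intro b hb
    rcases Finset.mem_insert.mp hb with rfl | hb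
    · exact squarefree_one
    · exact (hT b hb).2) v h2
  refine ⟨?_, fun b hb => ?_⟩
  · have := h3 1 (Finset.mem_insert_self _ _)
    simpa [hv] using this
  · rw [← hvT b hb]
    exact h3 b (Finset.mem_insert_of_mem hb)

end Pool.Agent.PWR
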