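import Pool.Agent.PWR.Targets

/-!
# MP_0ad3d3_nt: the norm bound (target NRM)
-/

namespace Pool.Agent.PWR.NRM

open Finset

theorem th_eq {b : ℕ} (hb : 1 ≤ b) : th b = √(b : ℝ) / (b : ℝ) ^ 2 := by
  unfold th be
  have h0 : (0 : ℝ) < b := by exact_mod_cast hb
  have hs : 0 < √(b : ℝ) := Real.sqrt_pos.mpr h0
  have h2 : √(b : ℝ) * √(b : ℝ) = b := Real.mul_self_sqrt h0.le
  rw [div_eq_div_iff (by positivity) (by positivity)]
  nlinarith

/-- `∑ |c b| th b ≤ m k`. -/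
theorem sum_le {T : Finset ℕ} (hT : ∀ b ∈ T, 2 ≤ b ∧ Squarefree b) {m : ℕ} {c : ℕ → ℤ}
    (hc : ∀ b ∈ T, |c b| ≤ m) : ∑ b ∈ T, |(c b : ℝ)| * th b ≤ m * #T := by
  have : ∑ b ∈ T, |(c b : ℝ)| * th b ≤ ∑ b ∈ T, (m : ℝ) := by
    apply Finset.sum_le_sum
    intro b hb
    have h1 : 1 ≤ b := by have := (hT b hb).1; omega
    have h2 : |(c b : ℝ)| ≤ m := by exact_mod_cast hc b hb
    have h3 := th_le_one h1
    have h4 := th_pos h1
    have h5 : 0 ≤ |(c b : ℝ)| := abs_nonneg _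
    nlinarith
  rw [Finset.sum_const, nsmul_eq_mul] at this
  linarith

/-- The coefficients of `√b`. -/
def uc (T : Finset ℕ) (c : ℕ → ℤ) (b : ℕ) : ℤ := c b * ∏ b' ∈ T.erase b, (b' : ℤ) ^ 2

theorem uc_mul {T : Finset ℕ} (hT : ∀ b ∈ T, 2 ≤ b ∧ Squarefree b) (c : ℕ → ℤ) {b : ℕ}
    (hb : b ∈ T) :
    (uc T c b : ℝ) * √(b : ℝ) = (∏ b ∈ T, (b : ℝ) ^ 2) * (c b * th b) := by
  have h1 : 1 ≤ b := by have := (hT b hb).1; omega
  have h0 : (b : ℝ) ≠ 0 := by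
    have : (0 : ℝ) < b := by exact_mod_cast h1
    exact this.ne'
  rw [← Finset.mul_prod_erase T (fun b : ℕ => (b : ℝ) ^ 2) hb, th_eq h1]
  unfold uc
  push_cast
  field_simp

/-- The twisted sum. -/
noncomputable def F (T : Finset ℕ) (c : ℕ → ℤ) (u0 : ℤ) (e : T → ℤˣ) : ℝ :=
  (u0 : ℝ) + ∑ i : T, ((e i : ℤ) : ℝ) * (uc T c i * √((i : ℕ) : ℝ))

theorem F_ne (h2 : T_LIN) {T : Finset ℕ} (hT : ∀ b ∈ T, 2 ≤ b ∧ Squarefree b) {c : ℕ → ℤ}
    (hex : ∃ b ∈ T, c b ≠ 0) (u0 : ℤ) (e : T → ℤˣ) : F T c u0 e ≠ 0 := by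
  classical
  intro h0
  obtain ⟨b, hb, hcb⟩ := hex
  let v : ℕ → ℤ := fun b => if h : b ∈ T then ((e ⟨b, h⟩ : ℤˣ) : ℤ) * uc T c b else 0
  have key : (u0 : ℝ) + ∑ b ∈ T, (v b : ℝ) * √(b : ℝ) = 0 := by
    rw [← h0]
    unfold F
    congr 1
    rw [← Finset.sum_coe_sort T]
    apply Finset.sum_congr rfl
    intro i _
    have : v (i : ℕ) = ((e i : ℤˣ) : ℤ) * uc T c i := by
      simp only [v, i.2, dif_pos, Subtype.coe_eta]
    rw [this]
    push_cast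
    ring
  have h3 := (h2 T hT v u0 key).2 b hb
  have h4 : v b = ((e ⟨b, hb⟩ : ℤˣ) : ℤ) * uc T c b := by simp only [v, hb, dif_pos]
  rw [h4] at h3
  rcases mul_eq_zero.mp h3 with h5 | h5
  · exact (Units.ne_zero _) h5
  · unfold uc at h5
    rcases mul_eq_zero.mp h5 with h6 | h6
    · exact hcb h6
    · rw [Finset.prod_eq_zero_iff] at h6
      obtain ⟨b', hb', h7⟩ := h6
      have h8 := (hT b' (Finset.mem_of_mem_erase hb')).1
      have h9 : (b' : ℤ) = 0 := by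
        exact pow_eq_zero_iff (two_ne_zero) |>.mp h7
      omega

theorem F_abs {T : Finset ℕ} (hT : ∀ b ∈ T, 2 ≤ b ∧ Squarefree b) {m : ℕ} {c : ℕ → ℤ}
    (hc : ∀ b ∈ T, |c b| ≤ m) (u0 : ℤ) (e : T → ℤˣ) :
    |F T c u0 e| ≤ |(u0 : ℝ)| + (∏ b ∈ T, (b : ℝ) ^ 2) * (m * #T) := by
  unfold F
  refine (abs_add_le _ _).trans (add_le_add le_rfl ?_)
  refine (Finset.abs_sum_le_sum_abs _ _).trans ?_
  have e1 : ∑ i : T, |((e i : ℤ) : ℝ) * (uc T c i * √((i : ℕ) : ℝ))| =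
      (∏ b ∈ T, (b : ℝ) ^ 2) * ∑ b ∈ T, |(c b : ℝ)| * th b := by
    rw [Finset.mul_sum, ← Finset.sum_coe_sort T]
    apply Finset.sum_congr rfl
    intro i _
    have h1 : 1 ≤ (i : ℕ) := by have := (hT i i.2).1; omega
    have h4 : (0 : ℝ) ≤ ∏ b ∈ T, (b : ℝ) ^ 2 := Finset.prod_nonneg fun b _ => by positivity
    rw [uc_mul hT c i.2, abs_mul, abs_mul, abs_mul, abs_of_pos (th_pos h1), abs_of_nonneg h4]
    have h3 : |((e i : ℤ) : ℝ)| = 1 := by
      rcases Int.units_eq_one_or (e i) with h | h <;> simp [h]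
    rw [h3, one_mul]
  rw [e1]
  exact mul_le_mul_of_nonneg_left (sum_le hT hc) (Finset.prod_nonneg fun b _ => by positivity)

theorem F_one {T : Finset ℕ} (hT : ∀ b ∈ T, 2 ≤ b ∧ Squarefree b) (c : ℕ → ℤ) (c0 : ℤ) :
    F T c (c0 * ∏ b ∈ T, (b : ℤ) ^ 2) 1 =
      (∏ b ∈ T, (b : ℝ) ^ 2) * ((c0 : ℝ) + ∑ b ∈ T, (c b : ℝ) * th b) := by
  unfold F
  rw [mul_add, Finset.mul_sum, ← Finset.sum_coe_sort T (fun b => _ * ((c b : ℝ) * th b))]
  push_cast
  rw [mul_comm (c0 : ℝ)]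
  congr 1
  apply Finset.sum_congr rfl
  intro i _
  rw [uc_mul hT c i.2]
  simp

end Pool.Agent.PWR.NRM

namespace Pool.Agent.PWR

open Finset NRM

theorem tNRM (h1 : T_PIN) (h2 : T_LIN) : T_NRM := by
  classical
  intro T hT m hm c hc hex c0
  have hprod : (1 : ℝ) ≤ ∏ b ∈ T, (b : ℝ) ^ 2 := by
    apply Finset.one_le_prod
    intro b hb
    have : (1 : ℝ) ≤ b := by
      have := (hT b hb).1
      exact_mod_cast (by omega : 1 ≤ b)
    nlinarith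
  have hm' : (1 : ℝ) ≤ m := by exact_mod_cast hm
  have hk' : (0 : ℝ) ≤ #T := by positivity
  set P : ℝ := ∏ b ∈ T, (b : ℝ) ^ 2 with hP
  have hH1 : (1 : ℝ) ≤ P * (2 * m * #T + 2) := by
    have : (0 : ℝ) ≤ m * #T := by positivity
    nlinarith
  set H : ℝ := P * (2 * m * #T + 2) with hH
  have hsum : |∑ b ∈ T, (c b : ℝ) * th b| ≤ m * #T := by
    refine (Finset.abs_sum_le_sum_abs _ _).trans (le_trans (le_of_eq ?_) (sum_le hT hc))
    apply Finset.sum_congr rfl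
    intro b hb
    have h1 : 1 ≤ b := by have := (hT b hb).1; omega
    rw [abs_mul, abs_of_pos (th_pos h1)]
  by_cases hc0 : (m : ℝ) * #T + 1 ≤ |(c0 : ℝ)|
  · have h3 : 1 ≤ |(c0 : ℝ) + ∑ b ∈ T, (c b : ℝ) * th b| := by
      have h4 := abs_sub_abs_le_abs_sub (c0 : ℝ) (-∑ b ∈ T, (c b : ℝ) * th b)
      rw [abs_neg, sub_neg_eq_add] at h4
      linarith
    have h5 : 1 ≤ H ^ (2 ^ #T) := one_le_pow₀ hH1
    nlinarith
  · have hc0' : |(c0 : ℝ)| ≤ m * #T := by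
      have h3 : |c0| < (m : ℤ) * #T + 1 := by
        have : |(c0 : ℝ)| < m * #T + 1 := not_le.mp hc0
        exact_mod_cast this
      have h4 : |c0| ≤ (m : ℤ) * #T := by omega
      exact_mod_cast h4
    obtain ⟨z, hz⟩ := h1 T (fun i => (i : ℕ)) (fun i => uc T c i) (c0 * ∏ b ∈ T, (b : ℤ) ^ 2)
    have hz' : ∏ e : T → ℤˣ, F T c (c0 * ∏ b ∈ T, (b : ℤ) ^ 2) e = z := hz
    have hne : (z : ℝ) ≠ 0 := by
      rw [← hz', Finset.prod_ne_zero_iff]
      intro e _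
      exact F_ne h2 hT hex _ e
    have hz1 : (1 : ℝ) ≤ |(z : ℝ)| := by
      have : z ≠ 0 := by
        rintro rfl
        exact hne (by simp)
      exact_mod_cast Int.one_le_abs this
    rw [← hz', Finset.abs_prod, ← Finset.mul_prod_erase _ _ (Finset.mem_univ (1 : T → ℤˣ))] at hz1
    have hb : ∏ e ∈ Finset.univ.erase (1 : T → ℤˣ),
        |F T c (c0 * ∏ b ∈ T, (b : ℤ) ^ 2) e| ≤ H ^ (2 ^ #T - 1) := by
      have h4 : ∏ e ∈ Finset.univ.erase (1 : T → ℤˣ),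
          |F T c (c0 * ∏ b ∈ T, (b : ℤ) ^ 2) e| ≤ ∏ _e ∈ Finset.univ.erase (1 : T → ℤˣ), H := by
        apply Finset.prod_le_prod
        · intro e _
          exact abs_nonneg _
        · intro e _
          refine (F_abs hT hc _ e).trans ?_
          push_cast
          rw [← hP, abs_mul, abs_of_nonneg (by linarith : (0 : ℝ) ≤ P), hH]
          nlinarith
      rw [Finset.prod_const, Finset.card_erase_of_mem (Finset.mem_univ _), Finset.card_univ,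
        Fintype.card_fun, Fintype.card_units_int, Fintype.card_coe] at h4
      exact h4
    rw [F_one hT, ← hP, abs_mul, abs_of_nonneg (by linarith : (0 : ℝ) ≤ P)] at hz1
    have hPH : P ≤ H := by
      have : (0 : ℝ) ≤ m * #T := by positivity
      rw [hH]
      nlinarith
    have hpow : H ^ (2 ^ #T) = H * H ^ (2 ^ #T - 1) := by
      rw [← pow_succ']
      congr 1
      have : 0 < 2 ^ #T := by positivity
      omega
    have hA : 0 ≤ |(c0 : ℝ) + ∑ b ∈ T, (c b : ℝ) * th b| := abs_nonneg _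
    have hHp : 0 ≤ H ^ (2 ^ #T - 1) := by
      have : 0 ≤ H := by linarith
      positivity
    calc (1 : ℝ) ≤ P * |(c0 : ℝ) + ∑ b ∈ T, (c b : ℝ) * th b| *
          ∏ e ∈ Finset.univ.erase (1 : T → ℤˣ), |F T c (c0 * ∏ b ∈ T, (b : ℤ) ^ 2) e| := hz1
      _ ≤ H * |(c0 : ℝ) + ∑ b ∈ T, (c b : ℝ) * th b| * H ^ (2 ^ #T - 1) := by
          apply mul_le_mul
          · exact mul_le_mul_of_nonneg_right hPH hA
          · exact hb
          · exact Finset.prod_nonneg fun _ _ => abs_nonneg _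
          · have : 0 ≤ H := by linarith
            positivity
      _ = H ^ (2 ^ #T) * |(c0 : ℝ) + ∑ b ∈ T, (c b : ℝ) * th b| := by
          rw [hpow]; ring

end Pool.Agent.PWR
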