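import Pool.Agent.PWR.Targets

/-!
# MP_0ad3d3_nt: the packing bound
-/

namespace Pool.Agent.PWR

open Finset

namespace PACK

/-- number of translates used at `b` -/
noncomputable def M (b : ℕ) : ℕ := max 1 ⌊be b / 3⌋₊

theorem one_le_M (b : ℕ) : 1 ≤ M b := le_max_left _ _

theorem one_le_M_mul {b : ℕ} (hb : 1 ≤ b) : 1 ≤ (M b : ℝ) * (6 * th b) := by
  have hB := be_pos hb
  have ht := th_pos hb
  have e := th_mul_be hb
  have h1 : be b ≤ 6 * M b := by
    rcases le_or_gt (be b) 6 with h | h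
    · have : (1 : ℝ) ≤ M b := by exact_mod_cast one_le_M b
      linarith
    · have h2 : be b / 3 < ⌊be b / 3⌋₊ + 1 := Nat.lt_floor_add_one _
      have h3 : (⌊be b / 3⌋₊ : ℝ) ≤ M b := by exact_mod_cast le_max_right 1 _
      linarith
  nlinarith

theorem M_eq_one_or {b : ℕ} (hb : 1 ≤ b) : M b = 1 ∨ 3 * (M b : ℝ) * th b ≤ 1 := by
  have hB := be_pos hb
  have ht := th_pos hb
  have e := th_mul_be hb
  rcases le_or_gt ⌊be b / 3⌋₊ 1 with h | h
  · left
    exact max_eq_left h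
  · right
    have h1 : M b = ⌊be b / 3⌋₊ := max_eq_right h.le
    have h2 : (⌊be b / 3⌋₊ : ℝ) ≤ be b / 3 := Nat.floor_le (by positivity)
    rw [h1]
    have h3 : 3 * (⌊be b / 3⌋₊ : ℝ) ≤ be b := by linarith
    have h4 := mul_le_mul_of_nonneg_right h3 ht.le
    linarith

theorem sep {b : ℕ} (hb : 1 ≤ b) {j j' : ℕ} (hj : j < M b) (hj' : j' < M b) (m : ℤ)
    (hm : |3 * ((j' : ℝ) - j) * th b - m| < 3 / 2 * th b) : j = j' := by
  have ht := th_pos hb
  by_contra hne
  have hM : M b ≠ 1 := by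
    intro h
    rw [h] at hj hj'
    omega
  have h3 := (M_eq_one_or hb).resolve_left hM
  have hd : (1 : ℝ) ≤ |(j' : ℝ) - j| := by
    have h : (1 : ℤ) ≤ |(j' : ℤ) - j| := by
      apply Int.one_le_abs
      intro h
      apply hne
      omega
    exact_mod_cast h
  have hd2 : |(j' : ℝ) - j| ≤ M b - 1 := by
    have h : |(j' : ℤ) - j| ≤ M b - 1 := by
      rw [abs_le]
      constructor <;> omega
    exact_mod_cast h
  have hab : |3 * ((j' : ℝ) - j) * th b| = 3 * |(j' : ℝ) - j| * th b := by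
    rw [abs_mul, abs_mul, abs_of_pos ht, abs_of_pos (by norm_num : (0 : ℝ) < 3)]
  by_cases hm0 : m = 0
  · rw [hm0, Int.cast_zero, sub_zero, hab] at hm
    nlinarith
  · have hm1 : (1 : ℝ) ≤ |(m : ℝ)| := by
      have := Int.one_le_abs hm0
      exact_mod_cast this
    have h5 := abs_sub_abs_le_abs_sub (m : ℝ) (3 * ((j' : ℝ) - j) * th b)
    rw [abs_sub_comm (m : ℝ), hab] at h5
    nlinarith

end PACK

open PACK in
theorem tPACK : T_PACK := by
  classical
  intro T X hT hK N hXN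
  have hT1 : ∀ b ∈ T, 1 ≤ b := fun b hb => le_trans (by norm_num) (hT b hb)
  have hK' : ∀ j : (∀ b ∈ T, ℕ), ∃ n : ℕ, n < X ∧ ∀ b (hb : b ∈ T), ∃ a : ℤ,
      |(n : ℝ) * th b - 3 * (j b hb : ℝ) * th b - a| < th b / 4 := by
    intro j
    obtain ⟨n, hn, h⟩ := hK (fun b => if hb : b ∈ T then 3 * (j b hb : ℝ) * th b else 0)
    refine ⟨n, hn, fun b hb => ?_⟩
    obtain ⟨a, ha⟩ := h b hb
    refine ⟨a, ?_⟩
    simpa [hb] using ha
  choose nn hnn hna using hK'
  set B : Finset ℕ := (Ico 1 N).filter (fun n => ∀ b ∈ T, Hit b n) with hB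
  have hCT : CT N (fun n => ∀ b ∈ T, Hit b n) = #B := by
    unfold CT
    congr!
  have hcard : #(B ×ˢ T.pi (fun b => range (M b))) ≤ #(range (2 * N)) := by
    refine Finset.card_le_card_of_injOn (fun p => p.1 + nn p.2) ?_ ?_
    · rintro ⟨n, j⟩ hp
      rw [mem_coe, mem_product, hB, mem_filter, mem_Ico] at hp
      have := hnn j
      simp only [mem_coe, mem_range]
      have h1 := hp.1.1.2
      simp only at h1
      omega
    · rintro ⟨n, j⟩ hp ⟨n', j'⟩ hp' hE
      rw [mem_coe, mem_product, hB, mem_filter, mem_Ico, mem_pi] at hp hp'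
      obtain ⟨⟨_, hH⟩, hj⟩ := hp
      obtain ⟨⟨_, hH'⟩, hj'⟩ := hp'
      simp only at hE hH hH' hj hj'
      have hjj : j = j' := by
        funext b hb
        obtain ⟨a, ha1, ha2⟩ := (hit_iff (hT1 b hb)).1 (hH b hb)
        obtain ⟨a', ha1', ha2'⟩ := (hit_iff (hT1 b hb)).1 (hH' b hb)
        obtain ⟨k, hk⟩ := hna j b hb
        obtain ⟨k', hk'⟩ := hna j' b hb
        have hE' : (n : ℝ) * th b + nn j * th b = n' * th b + nn j' * th b := by
          have : (n : ℝ) + nn j = n' + nn j' := by exact_mod_cast hE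
          rw [← add_mul, this, add_mul]
        rw [abs_lt] at hk hk'
        refine sep (hT1 b hb) (mem_range.1 (hj b hb)) (mem_range.1 (hj' b hb))
          (a + k - a' - k') ?_
        push_cast
        rw [abs_lt]
        constructor
        · nlinarith [hk.1, hk.2, hk'.1, hk'.2]
        · nlinarith [hk.1, hk.2, hk'.1, hk'.2]
      subst hjj
      have : n = n' := by omega
      rw [this]
  rw [card_product, card_pi, card_range] at hcard
  simp only [card_range] at hcard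
  have hcard' : (#B : ℝ) * ∏ b ∈ T, (M b : ℝ) ≤ 2 * N := by exact_mod_cast hcard
  have hprod : 1 ≤ ∏ b ∈ T, ((M b : ℝ) * (6 * th b)) := by
    have h0 : ∏ b ∈ T, (1 : ℝ) ≤ ∏ b ∈ T, ((M b : ℝ) * (6 * th b)) :=
      Finset.prod_le_prod (fun _ _ => zero_le_one) fun b hb => one_le_M_mul (hT1 b hb)
    simpa using h0
  have hth : 0 ≤ ∏ b ∈ T, (6 * th b) := by
    refine Finset.prod_nonneg fun b hb => ?_
    have := th_pos (hT1 b hb)
    positivity
  rw [hCT]
  have h6 : ∏ b ∈ T, (6 * th b) = 6 ^ #T * ∏ b ∈ T, th b := by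
    rw [Finset.prod_mul_distrib, Finset.prod_const]
  calc (#B : ℝ) ≤ #B * ∏ b ∈ T, ((M b : ℝ) * (6 * th b)) :=
        le_mul_of_one_le_right (by positivity) hprod
    _ = (#B * ∏ b ∈ T, (M b : ℝ)) * ∏ b ∈ T, (6 * th b) := by
        rw [Finset.prod_mul_distrib]
        ring
    _ ≤ (2 * N) * ∏ b ∈ T, (6 * th b) := mul_le_mul_of_nonneg_right hcard' hth
    _ = 2 * N * 6 ^ #T * ∏ b ∈ T, th b := by
        rw [h6]
        ring

end Pool.Agent.PWR
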