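import Pool.Agent.PWR.Targets

/-!
# MP_0ad3d3_nt: the lower bound by pigeonhole
-/

namespace Pool.Agent.PWR

open Finset

namespace PIG

/-- number of cells at `b` -/
noncomputable def K (b : ℕ) : ℕ := ⌈4 * be b⌉₊

theorem K_lo (b : ℕ) : 4 * be b ≤ K b := Nat.le_ceil _

theorem K_hi {b : ℕ} (hb : 1 ≤ b) : (K b : ℝ) ≤ 5 * be b := by
  have h1 := one_le_be hb
  have h2 : (K b : ℝ) < 4 * be b + 1 := Nat.ceil_lt_add_one (by linarith)
  linarith

theorem K_pos {b : ℕ} (hb : 1 ≤ b) : 0 < (K b : ℝ) := by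
  have h1 := one_le_be hb
  have h2 := K_lo b
  linarith

theorem inv_K {b : ℕ} (hb : 1 ≤ b) : 1 / (K b : ℝ) ≤ th b / 4 := by
  have hB := be_pos hb
  have h2 := K_lo b
  have h3 : 1 / (K b : ℝ) ≤ 1 / (4 * be b) := one_div_le_one_div_of_le (by linarith) h2
  have h4 : th b / 4 = 1 / (4 * be b) := by
    unfold th
    field_simp
  rw [h4]
  exact h3

theorem le_inv_K {b : ℕ} (hb : 1 ≤ b) : th b / 5 ≤ 1 / (K b : ℝ) := by
  have hB := be_pos hb
  have h2 := K_hi hb
  have h3 : 1 / (5 * be b) ≤ 1 / (K b : ℝ) := one_div_le_one_div_of_le (K_pos hb) h2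
  have h4 : th b / 5 = 1 / (5 * be b) := by
    unfold th
    field_simp
  rw [h4]
  exact h3

/-- the cell of `n` at `b` -/
noncomputable def cell (b n : ℕ) : ℕ := ⌊Int.fract ((n : ℝ) * th b) * K b⌋₊

theorem cell_lt {b : ℕ} (hb : 1 ≤ b) (n : ℕ) : cell b n < K b := by
  have h1 := K_pos hb
  have h2 : Int.fract ((n : ℝ) * th b) < 1 := Int.fract_lt_one _
  have h3 : 0 ≤ Int.fract ((n : ℝ) * th b) := Int.fract_nonneg _
  have h4 : Int.fract ((n : ℝ) * th b) * K b < K b := by nlinarith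
  unfold cell
  rw [Nat.floor_lt (by positivity)]
  exact h4

/-- Two numbers in the same cell. -/
theorem same_cell {b : ℕ} (hb : 1 ≤ b) {m n : ℕ} (h : cell b m = cell b n) :
    ∃ e : ℤ, |((m : ℝ) - n) * th b - e| < th b / 4 := by
  have h1 := K_pos hb
  have h2 := inv_K hb
  have a1 : 0 ≤ Int.fract ((m : ℝ) * th b) * K b := by
    have := Int.fract_nonneg ((m : ℝ) * th b)
    positivity
  have a2 : 0 ≤ Int.fract ((n : ℝ) * th b) * K b := by
    have := Int.fract_nonneg ((n : ℝ) * th b)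
    positivity
  have b1 := Nat.floor_le a1
  have b2 := Nat.floor_le a2
  have c1 := Nat.lt_floor_add_one (Int.fract ((m : ℝ) * th b) * K b)
  have c2 := Nat.lt_floor_add_one (Int.fract ((n : ℝ) * th b) * K b)
  unfold cell at h
  rw [h] at b1 c1
  have d1 : |Int.fract ((m : ℝ) * th b) * K b - Int.fract ((n : ℝ) * th b) * K b| < 1 := by
    rw [abs_lt]
    constructor <;> linarith
  have d2 : |Int.fract ((m : ℝ) * th b) - Int.fract ((n : ℝ) * th b)| < 1 / K b := by
    rw [← sub_mul, abs_mul, abs_of_pos h1] at d1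
    rw [lt_div_iff₀ h1]
    exact d1
  refine ⟨⌊(m : ℝ) * th b⌋ - ⌊(n : ℝ) * th b⌋, ?_⟩
  have e1 : ((m : ℝ) - n) * th b - ((⌊(m : ℝ) * th b⌋ - ⌊(n : ℝ) * th b⌋ : ℤ) : ℝ) =
      Int.fract ((m : ℝ) * th b) - Int.fract ((n : ℝ) * th b) := by
    push_cast
    unfold Int.fract
    ring
  rw [e1]
  linarith

end PIG

open PIG in
theorem tPIG : T_PIG := by
  classical
  intro T X hTn hT hK N hXN
  have hT1 : ∀ b ∈ T, 1 ≤ b := fun b hb => le_trans (by norm_num) (hT b hb)
  rcases Nat.eq_zero_or_pos N with hN | hN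
  · subst hN
    simp
  set L := N - X with hL
  have hLN : (N : ℝ) / 2 ≤ L := by
    have h1 : N ≤ 2 * L := by omega
    have h2 : (N : ℝ) ≤ 2 * L := by exact_mod_cast h1
    linarith
  have hNp : (0 : ℝ) < N := by exact_mod_cast hN
  set P : ℝ := ∏ b ∈ T, (K b : ℝ) with hP
  have hPpos : 0 < P := Finset.prod_pos fun b hb => K_pos (hT1 b hb)
  set F : ℕ → (∀ b ∈ T, ℕ) := fun n b _ => cell b n with hF
  have hmaps : ∀ n ∈ range L, F n ∈ T.pi (fun b => range (K b)) := by
    intro n _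
    rw [mem_pi]
    intro b hb
    rw [mem_range]
    exact cell_lt (hT1 b hb) n
  have hcard : (#(T.pi (fun b => range (K b))) : ℝ) = P := by
    rw [card_pi]
    simp only [card_range]
    push_cast
    rfl
  have hne : (T.pi (fun b => range (K b))).Nonempty := by
    rw [← Finset.card_pos]
    have : (0 : ℝ) < #(T.pi (fun b => range (K b))) := by rw [hcard]; exact hPpos
    exact_mod_cast this
  obtain ⟨y, _, hy⟩ := Finset.exists_le_card_fiber_of_nsmul_le_card_of_maps_to
    (b := (L : ℝ) / P) hmaps hne (by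
      rw [nsmul_eq_mul, hcard, card_range, mul_div_cancel₀ _ hPpos.ne'])
  set D := (range L).filter (fun n => F n = y) with hD
  have hDpos : D.Nonempty := by
    rw [← Finset.card_pos]
    have h1 : 0 < (L : ℝ) / P := by
      have : (0 : ℝ) < L := by linarith
      positivity
    have h2 : (0 : ℝ) < #D := lt_of_lt_of_le h1 hy
    exact_mod_cast h2
  set n1 := D.min' hDpos with hn1
  have hn1D : n1 ∈ D := Finset.min'_mem _ _
  obtain ⟨n0, hn0X, hn0⟩ := hK (fun b => -(th b / 2))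
  have hn0pos : 1 ≤ n0 := by
    by_contra hcon
    have h0 : n0 = 0 := by omega
    obtain ⟨b, hb⟩ := hTn
    obtain ⟨a, ha⟩ := hn0 b hb
    rw [h0, abs_lt] at ha
    have ht := th_pos (hT1 b hb)
    have ht1 := th_le_one (hT1 b hb)
    obtain ⟨ha1, ha2⟩ := ha
    push_cast at ha1 ha2
    have h3 : (0 : ℝ) < a := by linarith
    have h4 : (a : ℝ) < 1 := by linarith
    have h5 : 0 < a := by exact_mod_cast h3
    have h6 : a < 1 := by exact_mod_cast h4
    omega
  have hDCT : #D ≤ CT N (fun n => ∀ b ∈ T, Hit b n) := by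
    unfold CT
    refine Finset.card_le_card_of_injOn (fun n => n0 + (n - n1)) ?_ ?_
    · intro n hn
      have hnD : n ∈ D := hn
      have hge : n1 ≤ n := Finset.min'_le _ _ hnD
      rw [hD, mem_filter, mem_range] at hnD
      have hn1D' := hn1D
      rw [hD, mem_filter, mem_range] at hn1D'
      simp only [coe_filter, mem_Ico, Set.mem_ofPred_eq]
      refine ⟨⟨by omega, by omega⟩, fun b hb => ?_⟩
      rw [hit_iff (hT1 b hb)]
      obtain ⟨a, ha⟩ := hn0 b hb
      have hcell : cell b n = cell b n1 := by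
        have h1 := congrFun (congrFun (hnD.2.trans hn1D'.2.symm) b) hb
        exact h1
      obtain ⟨e, he⟩ := same_cell (hT1 b hb) hcell
      refine ⟨a + e, ?_⟩
      have hc : ((n0 + (n - n1) : ℕ) : ℝ) = n0 + ((n : ℝ) - n1) := by
        rw [Nat.cast_add, Nat.cast_sub hge]
      rw [hc, add_mul]
      rw [abs_lt] at ha he
      push_cast
      constructor
      · linarith [ha.1, ha.2, he.1, he.2]
      · linarith [ha.1, ha.2, he.1, he.2]
    · intro n hn m hm hE
      have h1 : n1 ≤ n := Finset.min'_le _ _ hn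
      have h2 : n1 ≤ m := Finset.min'_le _ _ hm
      simp only at hE
      omega
  have hfin : (N : ℝ) / 2 * ∏ b ∈ T, (th b / 5) ≤ (L : ℝ) / P := by
    have h1 : ∏ b ∈ T, (th b / 5) ≤ ∏ b ∈ T, (1 / (K b : ℝ)) := by
      refine Finset.prod_le_prod (fun b hb => ?_) fun b hb => le_inv_K (hT1 b hb)
      have := th_pos (hT1 b hb)
      positivity
    have h2 : ∏ b ∈ T, (1 / (K b : ℝ)) = 1 / P := by
      rw [Finset.prod_div_distrib, Finset.prod_const_one]
    rw [h2] at h1
    have h3 : 0 ≤ ∏ b ∈ T, (th b / 5) := Finset.prod_nonneg fun b hb => by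
      have := th_pos (hT1 b hb)
      positivity
    calc (N : ℝ) / 2 * ∏ b ∈ T, (th b / 5) ≤ L * (1 / P) := by
          refine mul_le_mul hLN h1 h3 (by linarith)
      _ = L / P := by ring
  have hDCT' : (#D : ℝ) ≤ CT N (fun n => ∀ b ∈ T, Hit b n) := by exact_mod_cast hDCT
  exact hfin.trans (hy.trans hDCT')

end Pool.Agent.PWR
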