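import Pool.Agent.PWR.Targets

/-!
# PIN: the product over all signs is an integer
-/

namespace Pool.Agent.PWR

open Finset

namespace PIN

variable {ι : Type}

/-- evaluation with signs -/
noncomputable def ph (β : ι → ℕ) (e : ι → ℤˣ) : MvPolynomial ι ℤ →ₐ[ℤ] ℝ :=
  MvPolynomial.aeval fun i => ((e i : ℤ) : ℝ) * √(β i)

/-- the change of signs of the variables -/
noncomputable def tw (d : ι → ℤˣ) : MvPolynomial ι ℤ →ₐ[ℤ] MvPolynomial ι ℤ :=
  MvPolynomial.aeval fun i => MvPolynomial.C (d i : ℤ) * MvPolynomial.X i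

theorem ph_tw (β : ι → ℕ) (e d : ι → ℤˣ) (p : MvPolynomial ι ℤ) :
    ph β e (tw d p) = ph β (e * d) p := by
  have h : (ph β e).comp (tw d) = ph β (e * d) := by
    refine MvPolynomial.algHom_ext fun i => ?_
    simp only [AlgHom.comp_apply, ph, tw, MvPolynomial.aeval_X, map_mul,
      MvPolynomial.aeval_C, Pi.mul_apply, Units.val_mul, Int.cast_mul]
    simp only [algebraMap_int_eq, eq_intCast]
    ring
  exact DFunLike.congr_fun h p

theorem one_var (b m : ℕ) : ∃ z : ℤ, ∑ s : ℤˣ, (((s : ℤ) : ℝ) * √(b : ℝ)) ^ m = 2 * z := by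
  have h1 : ∑ s : ℤˣ, (((s : ℤ) : ℝ) * √(b : ℝ)) ^ m =
      (√(b : ℝ)) ^ m + (-√(b : ℝ)) ^ m := by
    rw [UnitsInt.univ, Finset.sum_pair (by decide)]
    simp
  rcases Nat.even_or_odd m with hm | hm
  · obtain ⟨r, rfl⟩ := hm
    refine ⟨(b : ℤ) ^ r, ?_⟩
    rw [h1, ← two_mul, pow_mul, pow_mul, neg_sq, Real.sq_sqrt (Nat.cast_nonneg b)]
    push_cast
    ring
  · refine ⟨0, ?_⟩
    rw [h1, hm.neg_pow]
    simp

theorem all_sum [Fintype ι] [DecidableEq ι] (β : ι → ℕ) (q : MvPolynomial ι ℤ) :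
    ∃ z : ℤ, ∑ e : ι → ℤˣ, ph β e q = 2 ^ Fintype.card ι * z := by
  induction q using MvPolynomial.induction_on' with
  | monomial μ a =>
    choose z hz using fun i : ι => one_var (β i) (μ i)
    refine ⟨a * ∏ i, z i, ?_⟩
    have h1 : ∀ e : ι → ℤˣ, ph β e (MvPolynomial.monomial μ a) =
        a * ∏ i, (((e i : ℤ) : ℝ) * √(β i)) ^ μ i := by
      intro e
      unfold ph
      rw [MvPolynomial.aeval_monomial, Finsupp.prod_fintype _ _ (fun i => pow_zero _)]
      simp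
    have h2 : ∑ e : ι → ℤˣ, ∏ i, (((e i : ℤ) : ℝ) * √(β i)) ^ μ i =
        ∏ i, ∑ s : ℤˣ, (((s : ℤ) : ℝ) * √(β i)) ^ μ i := by
      rw [Finset.prod_univ_sum, Fintype.piFinset_univ]
    simp only [h1]
    rw [← Finset.mul_sum, h2]
    simp only [hz]
    rw [Finset.prod_mul_distrib, Finset.prod_const, Finset.card_univ]
    push_cast
    ring
  | add p q hp hq =>
    obtain ⟨z, hz⟩ := hp
    obtain ⟨w, hw⟩ := hq
    refine ⟨z + w, ?_⟩
    simp only [map_add, Finset.sum_add_distrib]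
    rw [hz, hw]
    push_cast
    ring

end PIN

open PIN

theorem tPIN : T_PIN := by
  intro ι _ _ β u u0
  set p : MvPolynomial ι ℤ := MvPolynomial.C u0 +
    ∑ i, MvPolynomial.C (u i) * MvPolynomial.X i with hp
  have hφ : ∀ e : ι → ℤˣ, ph β e p = (u0 : ℝ) + ∑ i, ((e i : ℤ) : ℝ) * (u i * √(β i)) := by
    intro e
    have h1 : ∀ i : ι, ph β e (MvPolynomial.C (u i) * MvPolynomial.X i) =
        ((e i : ℤ) : ℝ) * (u i * √(β i)) := by
      intro i
      rw [map_mul]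
      unfold ph
      rw [MvPolynomial.aeval_C, MvPolynomial.aeval_X, algebraMap_int_eq, eq_intCast]
      ring
    rw [hp, map_add, map_sum, Finset.sum_congr rfl fun i _ => h1 i]
    unfold ph
    rw [MvPolynomial.aeval_C, algebraMap_int_eq, eq_intCast]
  set G : ℝ := ∏ e : ι → ℤˣ, ph β e p with hG
  have hQ : ∀ e : ι → ℤˣ, ph β e (∏ d : ι → ℤˣ, tw d p) = G := by
    intro e
    rw [map_prod]
    simp only [ph_tw]
    exact Equiv.prod_comp (Equiv.mulLeft e) fun d => ph β d p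
  obtain ⟨z, hz⟩ := all_sum β (∏ d : ι → ℤˣ, tw d p)
  simp only [hQ, Finset.sum_const, Finset.card_univ, nsmul_eq_mul] at hz
  rw [Fintype.card_fun, Fintype.card_units_int] at hz
  push_cast at hz
  refine ⟨z, ?_⟩
  have h2 : (2 : ℝ) ^ Fintype.card ι ≠ 0 := by positivity
  have h3 : G = z := mul_left_cancel₀ h2 hz
  rw [← h3, hG]
  exact Finset.prod_congr rfl fun e _ => (hφ e).symm

end Pool.Agent.PWR
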