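import Pool.Agent.PWR.Targets

/-!
# SYM: elementary symmetric sums of `b^(-3/2)`
-/

namespace Pool.Agent.PWR

open Finset

namespace SYM

theorem esymm_le (S : Finset ℕ) (hS : ∀ b ∈ S, 1 ≤ b) (k : ℕ) {z : ℝ} (hz : 0 < z) :
    (∑ T ∈ S.powersetCard k, ∏ b ∈ T, th b) * z ^ k ≤ ∏ b ∈ S, (1 + z * th b) := by
  rw [Finset.prod_one_add, Finset.sum_mul]
  have h1 : ∑ T ∈ S.powersetCard k, (∏ b ∈ T, th b) * z ^ k =
      ∑ T ∈ S.powersetCard k, ∏ b ∈ T, z * th b := by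
    refine Finset.sum_congr rfl fun T hT => ?_
    rw [Finset.prod_mul_distrib, Finset.prod_const, (Finset.mem_powersetCard.1 hT).2, mul_comm]
  rw [h1]
  refine Finset.sum_le_sum_of_subset_of_nonneg ?_ ?_
  · intro T hT
    rw [Finset.mem_powerset]
    exact (Finset.mem_powersetCard.1 hT).1
  · intro T hT _
    rw [Finset.mem_powerset] at hT
    exact Finset.prod_nonneg fun b hb => mul_nonneg hz.le (th_pos (hS b (hT hb))).le

theorem th_le_tel {m : ℕ} (hm : 1 ≤ m) :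
    th (m + 1) ≤ 2 / √(m : ℝ) - 2 / √((m + 1 : ℕ) : ℝ) := by
  unfold th be
  have hm0 : (0 : ℝ) < m := by exact_mod_cast hm
  push_cast
  set s := √(m : ℝ) with hs
  set t := √((m : ℝ) + 1) with ht
  have hs0 : 0 < s := Real.sqrt_pos.2 hm0
  have ht0 : 0 < t := Real.sqrt_pos.2 (by linarith)
  have hs2 : s ^ 2 = m := Real.sq_sqrt hm0.le
  have ht2 : t ^ 2 = m + 1 := Real.sq_sqrt (by linarith)
  have hst : s ≤ t := Real.sqrt_le_sqrt (by linarith)
  rw [← ht2, div_sub_div _ _ hs0.ne' ht0.ne', div_le_div_iff₀ (by positivity) (by positivity)]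
  have h1 : (t - s) * (t + s) = 1 := by nlinarith
  have h2 : 1 ≤ (t - s) * (2 * t) := by nlinarith
  have h3 : s ≤ (t - s) * (2 * t) * t := by nlinarith
  nlinarith [mul_le_mul_of_nonneg_right h3 ht0.le]

theorem sum_th_le {Z : ℕ} (hZ : 1 ≤ Z) (Y : ℕ) : ∑ b ∈ Ioc Z Y, th b ≤ 2 / √(Z : ℝ) := by
  rcases Nat.lt_or_ge Y Z with h | h
  · rw [Finset.Ioc_eq_empty (by omega), Finset.sum_empty]
    positivity
  · have key : ∑ b ∈ Ioc Z Y, th b ≤ 2 / √(Z : ℝ) - 2 / √(Y : ℝ) := by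
      induction Y, h using Nat.le_induction with
      | base => simp
      | succ m hm ih =>
        rw [Finset.sum_Ioc_succ_top hm]
        have := th_le_tel (le_trans hZ hm)
        linarith
    have : 0 ≤ 2 / √(Y : ℝ) := by positivity
    linarith

theorem prod_le_exp {z : ℝ} (hz : 0 < z) {Z : ℕ} (hZ : 1 ≤ Z) (Y : ℕ) :
    ∏ b ∈ Ioc Z Y, (1 + z * th b) ≤ Real.exp (z * (2 / √(Z : ℝ))) := by
  have h0 : ∀ b ∈ Ioc Z Y, 0 < th b := fun b hb =>
    th_pos (by rw [Finset.mem_Ioc] at hb; omega)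
  calc ∏ b ∈ Ioc Z Y, (1 + z * th b) ≤ ∏ b ∈ Ioc Z Y, Real.exp (z * th b) := by
        refine Finset.prod_le_prod (fun b hb => ?_) fun b _ => ?_
        · have := mul_pos hz (h0 b hb)
          linarith
        · rw [add_comm]
          exact Real.add_one_le_exp _
    _ = Real.exp (z * ∑ b ∈ Ioc Z Y, th b) := by
        rw [← Real.exp_sum, Finset.mul_sum]
    _ ≤ _ := Real.exp_le_exp.2 (mul_le_mul_of_nonneg_left (sum_th_le hZ Y) hz.le)

theorem be_sq (b : ℕ) : be b ^ 2 = (b : ℝ) ^ 3 := by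
  unfold be
  rw [mul_pow, Real.sq_sqrt (Nat.cast_nonneg b)]
  ring

theorem be_mono {b k : ℕ} (h : b ≤ k) : be b ≤ be k := by
  unfold be
  have : (b : ℝ) ≤ k := by exact_mod_cast h
  gcongr

theorem prod_be_ratio {k : ℕ} (hk : 1 ≤ k) :
    ∏ b ∈ Ioc 0 k, be k * th b ≤ Real.exp (3 * k / 2) := by
  have hA : 0 ≤ ∏ b ∈ Ioc 0 k, be k * th b := Finset.prod_nonneg fun b hb =>
    mul_nonneg (be_pos hk).le (th_pos (by rw [Finset.mem_Ioc] at hb; omega)).le
  refine le_of_sq_le_sq ?_ (Real.exp_pos _).le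
  have h1 : (∏ b ∈ Ioc 0 k, be k * th b) ^ 2 = ((k : ℝ) ^ k / (k.factorial : ℝ)) ^ 3 := by
    rw [← Finset.prod_pow]
    have h2 : ∀ b ∈ Ioc 0 k, (be k * th b) ^ 2 = ((k : ℝ) / b) ^ 3 := by
      intro b _
      unfold th
      rw [mul_pow, div_pow, be_sq, be_sq]
      ring
    rw [Finset.prod_congr rfl h2, Finset.prod_pow, Finset.prod_div_distrib, Finset.prod_const,
      Nat.card_Ioc, Nat.sub_zero]
    congr 3
    rw [← Nat.cast_prod]
    congr 1
    clear h2 hA hk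
    induction k with
    | zero => rfl
    | succ k ih =>
      rw [Finset.prod_Ioc_succ_top (Nat.zero_le k), ih, Nat.factorial_succ, mul_comm]
  have h3 : (k : ℝ) ^ k / (k.factorial : ℝ) ≤ Real.exp k :=
    Real.pow_div_factorial_le_exp (k : ℝ) (Nat.cast_nonneg k) k
  rw [h1]
  calc ((k : ℝ) ^ k / (k.factorial : ℝ)) ^ 3 ≤ (Real.exp k) ^ 3 :=
        pow_le_pow_left₀ (by positivity) h3 3
    _ = Real.exp (3 * k / 2) ^ 2 := by
        rw [← Real.exp_nat_mul, ← Real.exp_nat_mul]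
        congr 1
        push_cast
        ring

theorem one_le_prod' {S : Finset ℕ} {f : ℕ → ℝ} (h : ∀ b ∈ S, 1 ≤ f b) : 1 ≤ ∏ b ∈ S, f b :=
  Finset.prod_induction f (fun x => 1 ≤ x) (fun _ _ ha hb => one_le_mul_of_one_le_of_one_le ha hb)
    le_rfl h

theorem prod_mono' {S S' : Finset ℕ} {f : ℕ → ℝ} (hs : S ⊆ S') (h : ∀ b ∈ S', 1 ≤ f b) :
    ∏ b ∈ S, f b ≤ ∏ b ∈ S', f b := by
  rw [← Finset.prod_sdiff hs]
  have h1 : 1 ≤ ∏ b ∈ S' \ S, f b := one_le_prod' fun b hb => h b (Finset.mem_sdiff.1 hb).1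
  have h2 : 1 ≤ ∏ b ∈ S, f b := one_le_prod' fun b hb => h b (hs hb)
  nlinarith

theorem exp_const : 2 * Real.exp (7 / 2) ≤ 70 := by
  have h1 : Real.exp (7 / 2) ≤ 35 := by
    refine le_of_sq_le_sq ?_ (by norm_num)
    rw [← Real.exp_nat_mul]
    have h2 : Real.exp ((2 : ℕ) * (7 / 2)) = Real.exp 1 ^ 7 := by
      rw [← Real.exp_nat_mul]
      norm_num
    rw [h2]
    calc Real.exp 1 ^ 7 ≤ (2.7182818286 : ℝ) ^ 7 :=
          pow_le_pow_left₀ (Real.exp_pos _).le Real.exp_one_lt_d9.le 7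
      _ ≤ 35 ^ 2 := by norm_num
  linarith

theorem prod_first {k : ℕ} (hk : 1 ≤ k) :
    ∏ b ∈ Ioc 1 k, (1 + be k * th b) ≤ 2 ^ k * Real.exp (3 * k / 2) := by
  have hge : ∀ b ∈ Ioc 0 k, 1 ≤ be k * th b := by
    intro b hb
    rw [Finset.mem_Ioc] at hb
    have h1 := th_mul_be (b := b) (by omega)
    have h2 := mul_le_mul_of_nonneg_left (be_mono hb.2) (th_pos (b := b) (by omega)).le
    linarith
  have hsub : Ioc 1 k ⊆ Ioc 0 k := by
    intro b hb
    rw [Finset.mem_Ioc] at hb ⊢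
    omega
  calc ∏ b ∈ Ioc 1 k, (1 + be k * th b) ≤ ∏ b ∈ Ioc 1 k, 2 * (be k * th b) := by
        refine Finset.prod_le_prod (fun b hb => ?_) fun b hb => ?_
        · have := hge b (hsub hb)
          linarith
        · have := hge b (hsub hb)
          linarith
    _ ≤ ∏ b ∈ Ioc 0 k, 2 * (be k * th b) := prod_mono' hsub fun b hb => by
        have := hge b hb
        linarith
    _ = 2 ^ k * ∏ b ∈ Ioc 0 k, be k * th b := by
        rw [Finset.prod_mul_distrib, Finset.prod_const, Nat.card_Ioc, Nat.sub_zero]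
    _ ≤ _ := mul_le_mul_of_nonneg_left (prod_be_ratio hk) (by positivity)

theorem prod_all {k : ℕ} (hk : 1 ≤ k) (Y : ℕ) :
    ∏ b ∈ Ioc 1 Y, (1 + be k * th b) ≤ 70 ^ k := by
  have hk0 : (0 : ℝ) < k := by exact_mod_cast hk
  have h1 : ∀ b ∈ Ioc 1 (max k Y), 1 ≤ 1 + be k * th b := by
    intro b hb
    rw [Finset.mem_Ioc] at hb
    have := mul_pos (be_pos hk) (th_pos (b := b) (by omega))
    linarith
  have h2 : ∏ b ∈ Ioc 1 Y, (1 + be k * th b) ≤ ∏ b ∈ Ioc 1 (max k Y), (1 + be k * th b) := by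
    refine prod_mono' ?_ h1
    intro b hb
    rw [Finset.mem_Ioc] at hb ⊢
    exact ⟨hb.1, hb.2.trans (le_max_right _ _)⟩
  have h3 : ∏ b ∈ Ioc 1 (max k Y), (1 + be k * th b) =
      (∏ b ∈ Ioc 1 k, (1 + be k * th b)) * ∏ b ∈ Ioc k (max k Y), (1 + be k * th b) := by
    rw [Finset.prod_Ioc_consecutive _ hk (le_max_left _ _)]
  have h4 := prod_first hk
  have h5 := prod_le_exp (be_pos hk) hk (max k Y)
  have h6 : be k * (2 / √(k : ℝ)) = 2 * k := by
    unfold be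
    have : √(k : ℝ) ≠ 0 := (Real.sqrt_pos.2 hk0).ne'
    field_simp
  rw [h6] at h5
  have h7 : 0 ≤ ∏ b ∈ Ioc k (max k Y), (1 + be k * th b) := by
    refine Finset.prod_nonneg fun b hb => ?_
    rw [Finset.mem_Ioc] at hb
    have := mul_pos (be_pos hk) (th_pos (b := b) (by omega))
    linarith
  calc ∏ b ∈ Ioc 1 Y, (1 + be k * th b) ≤ _ := h2
    _ = _ := h3
    _ ≤ (2 ^ k * Real.exp (3 * k / 2)) * Real.exp (2 * k) :=
        mul_le_mul h4 h5 h7 (by positivity)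
    _ = (2 * Real.exp (7 / 2)) ^ k := by
        rw [mul_pow, mul_assoc, ← Real.exp_add, ← Real.exp_nat_mul]
        congr 2
        ring
    _ ≤ 70 ^ k := pow_le_pow_left₀ (by positivity) exp_const k

end SYM

open SYM in
theorem tSYM : T_SYM := by
  constructor
  · intro k Y hk
    have h1 := esymm_le (Ioc 1 Y) (fun b hb => by rw [Finset.mem_Ioc] at hb; omega) k (be_pos hk)
    have h2 := h1.trans (prod_all hk Y)
    have h3 : th k ^ k * be k ^ k = 1 := by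
      rw [← mul_pow, th_mul_be hk, one_pow]
    have h4 := mul_le_mul_of_nonneg_right h2 (pow_nonneg (th_pos hk).le k)
    calc ∑ T ∈ (Ioc 1 Y).powersetCard k, ∏ b ∈ T, th b
        = (∑ T ∈ (Ioc 1 Y).powersetCard k, ∏ b ∈ T, th b) * be k ^ k * th k ^ k := by
          rw [mul_assoc, mul_comm (be k ^ k), h3, mul_one]
      _ ≤ _ := h4
  · intro R Z Y hZ
    have hZ0 : (0 : ℝ) < Z := by exact_mod_cast hZ
    have hs : 0 < √(Z : ℝ) := Real.sqrt_pos.2 hZ0
    have hz : 0 < √(Z : ℝ) / 2 := by positivity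
    have h1 := esymm_le (Ioc Z Y) (fun b hb => by rw [Finset.mem_Ioc] at hb; omega) R hz
    have h2 := h1.trans (prod_le_exp hz hZ Y)
    have h3 : √(Z : ℝ) / 2 * (2 / √(Z : ℝ)) = 1 := by field_simp
    rw [h3] at h2
    have h4 : Real.exp 1 ≤ 3 := by
      have := Real.exp_one_lt_d9
      linarith
    have h5 : (√(Z : ℝ) / 2) ^ R * (2 / √(Z : ℝ)) ^ R = 1 := by
      rw [← mul_pow, h3, one_pow]
    have h6 := mul_le_mul_of_nonneg_right (h2.trans h4)
      (pow_nonneg (by positivity : 0 ≤ 2 / √(Z : ℝ)) R)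
    calc ∑ T ∈ (Ioc Z Y).powersetCard R, ∏ b ∈ T, th b
        = (∑ T ∈ (Ioc Z Y).powersetCard R, ∏ b ∈ T, th b) * (√(Z : ℝ) / 2) ^ R *
          (2 / √(Z : ℝ)) ^ R := by
          rw [mul_assoc, h5, mul_one]
      _ ≤ _ := h6

end Pool.Agent.PWR
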