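import Pool.Agent.PWR.Targets

/-!
# PWR, target UP: the uniform upper bound
-/

set_option autoImplicit false

namespace Pool.Agent.PWR

open Finset

namespace UP

theorem be_sq (k : ℕ) : (be k) ^ 2 = (k : ℝ) ^ 3 := by
  unfold be
  rw [mul_pow, Real.sq_sqrt (Nat.cast_nonneg k)]
  ring

theorem inv_sqrt_le {k : ℕ} (hk : 1 ≤ k) :
    1 / √(((1000 * k) ^ (3 * k) : ℕ) : ℝ) ≤ th k ^ k := by
  have hB := be_pos hk
  have hk1 : (1 : ℝ) ≤ k := by exact_mod_cast hk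
  have h1 : be k ^ k ≤ √(((1000 * k) ^ (3 * k) : ℕ) : ℝ) := by
    refine Real.le_sqrt_of_sq_le ?_
    rw [← pow_mul, mul_comm k 2, pow_mul, be_sq, ← pow_mul]
    push_cast
    exact pow_le_pow_left₀ (by positivity) (by linarith) _
  unfold th
  rw [div_pow, one_pow]
  exact one_div_le_one_div_of_le (by positivity) h1

theorem num (k : ℕ) (hk : 1 ≤ k) : (2 : ℝ) + 2 * (6 ^ k * 70 ^ k) ≤ 1700 ^ k := by
  have h1 : (1 : ℝ) ≤ 6 ^ k * 70 ^ k := by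
    have h2 : (1 : ℝ) ≤ 6 ^ k := one_le_pow₀ (by norm_num)
    have h3 : (1 : ℝ) ≤ 70 ^ k := one_le_pow₀ (by norm_num)
    nlinarith
  have h4 : (4 : ℝ) ≤ 4 ^ k := by
    calc (4 : ℝ) = 4 ^ 1 := by norm_num
      _ ≤ 4 ^ k := pow_le_pow_right₀ (by norm_num) hk
  calc (2 : ℝ) + 2 * (6 ^ k * 70 ^ k) ≤ 4 * (6 ^ k * 70 ^ k) := by linarith
    _ ≤ 4 ^ k * (6 ^ k * 70 ^ k) := mul_le_mul_of_nonneg_right h4 (by linarith)
    _ = 1680 ^ k := by
        rw [← mul_pow, ← mul_pow]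
        norm_num
    _ ≤ 1700 ^ k := pow_le_pow_left₀ (by norm_num) (by norm_num) k

end UP

open UP in
theorem tUP (h1 : T_CNT) (h2 : T_SYM) : T_UP := by
  intro k hk N hN
  have hY : 1000 * k ^ 2 ≤ (1000 * k) ^ (3 * k) := by
    have h3 : 1 ≤ 1000 * k := by omega
    calc 1000 * k ^ 2 ≤ (1000 * k) ^ 2 := by nlinarith
      _ ≤ (1000 * k) ^ (3 * k) := Nat.pow_le_pow_right h3 (by omega)
  have hX : ((1000 * k) ^ (3 * k)) ^ (10 * k * 2 ^ k) ≤ N := by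
    rw [← pow_mul]
    convert hN using 2
    ring
  have h4 := h1 k 1 ((1000 * k) ^ (3 * k)) N hk le_rfl hY hX
  have h5 := h2.1 k ((1000 * k) ^ (3 * k)) hk
  have h6 := inv_sqrt_le hk
  have hth : 0 ≤ th k ^ k := pow_nonneg (th_pos hk).le k
  have hN0 : (0 : ℝ) ≤ N := Nat.cast_nonneg N
  have e : (fun n => k + 1 ≤ h n) = fun n => 1 + k ≤ h n := by
    funext n
    rw [add_comm]
  rw [e]
  refine h4.trans ?_
  have h7 : 2 * (N : ℝ) / √(((1000 * k) ^ (3 * k) : ℕ) : ℝ) ≤ 2 * N * th k ^ k := by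
    rw [div_eq_mul_one_div]
    exact mul_le_mul_of_nonneg_left h6 (by positivity)
  have h8 : 2 * (N : ℝ) * 6 ^ k * ∑ T ∈ (Ioc 1 ((1000 * k) ^ (3 * k))).powersetCard k,
      ∏ b ∈ T, th b ≤ 2 * N * 6 ^ k * (70 ^ k * th k ^ k) :=
    mul_le_mul_of_nonneg_left h5 (by positivity)
  have h9 : (N : ℝ) * th k ^ k * (2 + 2 * (6 ^ k * 70 ^ k)) ≤ N * th k ^ k * 1700 ^ k :=
    mul_le_mul_of_nonneg_left (num k hk) (by positivity)
  linarith

end Pool.Agent.PWR
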