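import Pool.Agent.PWR.Core
import Pool.Agent.PWR.PIN
import Pool.Agent.PWR.LIN
import Pool.Agent.PWR.NRM
import Pool.Agent.PWR.EXP
import Pool.Agent.PWR.KRO
import Pool.Agent.PWR.KRY
import Pool.Agent.PWR.PACK
import Pool.Agent.PWR.PIG
import Pool.Agent.PWR.HUP
import Pool.Agent.PWR.HLO
import Pool.Agent.PWR.BIG
import Pool.Agent.PWR.SYM
import Pool.Agent.PWR.CNT
import Pool.Agent.PWR.UP
import Pool.Agent.PWR.LO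
import Pool.Agent.PWR.EXC

namespace Pool.Agent.PWR

theorem allKRY : T_KRY := tKRY (tKRO tEXP) (tNRM tPIN tLIN)

theorem allCNT : T_CNT := tCNT tHUP tBIG tPACK allKRY

open Filter in
theorem main :
    (∃ C : ℝ, 1 ≤ C ∧ ∀ k : ℕ, 1 ≤ k → ∀ x : ℝ, Real.exp (Real.exp (C * k)) ≤ x →
      x * (C * k) ^ (-(3 / 2 * k) : ℝ) ≤
        Nat.card {n : ℕ | 1 ≤ n ∧ (n : ℝ) ≤ x ∧ k + 1 ≤ h n} ∧
      (Nat.card {n : ℕ | 1 ≤ n ∧ (n : ℝ) ≤ x ∧ k + 1 ≤ h n} : ℝ) ≤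
        x * (k / C) ^ (-(3 / 2 * k) : ℝ)) ∧
    (∀ ε : ℝ, 0 < ε → ∃ c : ℝ, 0 < c ∧ ∀ᶠ x : ℝ in atTop,
      (Nat.card {n : ℕ | 1 ≤ n ∧ (n : ℝ) ≤ x ∧ (Real.log n) ^ ε ≤ h n} : ℝ) ≤
        x * Real.exp (-(c * (Real.log (Real.log x)) ^ 2))) :=
  core (tUP allCNT tSYM) (tLO tPIG allKRY tHLO) (tEXC allCNT tSYM)

end Pool.Agent.PWR
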