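import Pool.Agent.PWR.Targets

/-!
# MP_0ad3d3_nt: assembly
-/

namespace Pool.Agent.PWR

open Finset Filter

namespace Core

lemma th_eq {k : ℕ} (hk : 1 ≤ k) : th k = (k : ℝ) ^ (-(3 / 2) : ℝ) := by
  have hk0 : (0 : ℝ) < k := by exact_mod_cast hk
  unfold th be
  rw [Real.rpow_neg hk0.le, one_div]
  congr 1
  rw [show (3 / 2 : ℝ) = 1 + 1 / 2 by norm_num, Real.rpow_add hk0, Real.rpow_one,
    Real.sqrt_eq_rpow]

lemma C_eq : (10000 : ℝ) ^ (3 / 2 : ℝ) = 1000000 := by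
  rw [show (10000 : ℝ) = (100 : ℝ) ^ (2 : ℝ) by norm_num, ← Real.rpow_mul (by norm_num)]
  norm_num

lemma up_eq {k : ℕ} (hk : 1 ≤ k) :
    ((k : ℝ) / 10000) ^ (-(3 / 2 * k) : ℝ) = (1000000 * th k) ^ k := by
  have hk0 : (0 : ℝ) < k := by exact_mod_cast hk
  rw [th_eq hk, show (-(3 / 2 * k) : ℝ) = -(3 / 2) * (k : ℝ) by ring,
    Real.rpow_mul (by positivity), Real.rpow_natCast, Real.div_rpow hk0.le (by norm_num)]
  congr 1
  rw [Real.rpow_neg (by norm_num : (0 : ℝ) ≤ 10000), C_eq]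
  field_simp

lemma lo_eq {k : ℕ} (hk : 1 ≤ k) :
    (10000 * (k : ℝ)) ^ (-(3 / 2 * k) : ℝ) = (th k / 1000000) ^ k := by
  have hk0 : (0 : ℝ) < k := by exact_mod_cast hk
  rw [th_eq hk, show (-(3 / 2 * k) : ℝ) = -(3 / 2) * (k : ℝ) by ring,
    Real.rpow_mul (by positivity), Real.rpow_natCast, Real.mul_rpow (by norm_num) hk0.le]
  congr 1
  rw [Real.rpow_neg (by norm_num : (0 : ℝ) ≤ 10000), C_eq]
  field_simp

lemma size {k : ℕ} (hk : 1 ≤ k) {x : ℝ} (hx : Real.exp (Real.exp (10000 * k)) ≤ x) :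
    (((1000 * k) ^ (30 * k ^ 2 * 2 ^ k) : ℕ) : ℝ) ≤ x := by
  refine le_trans ?_ hx
  have hk1 : (1 : ℝ) ≤ k := by exact_mod_cast hk
  have hk0 : (0 : ℝ) < 1000 * (k : ℝ) := by positivity
  have e1 : ((((1000 * k) ^ (30 * k ^ 2 * 2 ^ k) : ℕ)) : ℝ) =
      Real.exp (Real.log (1000 * k) * (30 * k ^ 2 * 2 ^ k)) := by
    push_cast
    rw [← Real.rpow_natCast, Real.rpow_def_of_pos hk0]
    push_cast
    ring_nf
  rw [e1]
  apply Real.exp_le_exp.mpr
  have h1 : Real.log (1000 * k) ≤ 1000 * k := (Real.log_le_sub_one_of_pos hk0).trans (by linarith)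
  have h2 : (k : ℝ) ≤ Real.exp k := by linarith [Real.add_one_le_exp (k : ℝ)]
  have h3 : (2 : ℝ) ^ k ≤ Real.exp k := by
    rw [← Real.exp_one_pow]
    apply pow_le_pow_left₀ (by norm_num)
    linarith [Real.exp_one_gt_d9]
  have h4 : (30000 : ℝ) ≤ Real.exp 11 := by
    have : (2.7 : ℝ) ≤ Real.exp 1 := by linarith [Real.exp_one_gt_d9]
    calc (30000 : ℝ) ≤ 2.7 ^ 11 := by norm_num
      _ ≤ Real.exp 1 ^ 11 := pow_le_pow_left₀ (by norm_num) this _
      _ = Real.exp 11 := by rw [← Real.exp_nat_mul]; norm_num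
  calc Real.log (1000 * k) * (30 * (k : ℝ) ^ 2 * 2 ^ k)
      ≤ (1000 * (k : ℝ)) * (30 * (k : ℝ) ^ 2 * 2 ^ k) := by gcongr
    _ = 30000 * ((k : ℝ) ^ 3 * 2 ^ k) := by ring
    _ ≤ Real.exp 11 * (Real.exp k ^ 3 * Real.exp k) := by gcongr
    _ = Real.exp (11 + 4 * (k : ℝ)) := by
        rw [Real.exp_add, ← Real.exp_nat_mul, ← Real.exp_add]
        push_cast
        ring_nf
    _ ≤ Real.exp (10000 * (k : ℝ)) := by
        apply Real.exp_le_exp.mpr
        linarith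

lemma size2 {k : ℕ} (hk : 1 ≤ k) :
    2 * (1000 * k ^ 2) ^ (10 * k * 2 ^ k) ≤ (1000 * k) ^ (30 * k ^ 2 * 2 ^ k) := by
  have h1 : 1000 * k ^ 2 ≤ (1000 * k) ^ 2 := by nlinarith [sq_nonneg k]
  have h2 : (1000 * k ^ 2) ^ (10 * k * 2 ^ k) ≤ (1000 * k) ^ (20 * k * 2 ^ k) := by
    calc (1000 * k ^ 2) ^ (10 * k * 2 ^ k) ≤ ((1000 * k) ^ 2) ^ (10 * k * 2 ^ k) :=
          Nat.pow_le_pow_left h1 _
      _ = (1000 * k) ^ (20 * k * 2 ^ k) := by rw [← pow_mul]; ring_nf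
  have h3 : 0 < 2 ^ k := by positivity
  calc 2 * (1000 * k ^ 2) ^ (10 * k * 2 ^ k) ≤ (1000 * k) * (1000 * k) ^ (20 * k * 2 ^ k) :=
        Nat.mul_le_mul (by omega) h2
    _ = (1000 * k) ^ (20 * k * 2 ^ k + 1) := by rw [pow_succ]; ring
    _ ≤ (1000 * k) ^ (30 * k ^ 2 * 2 ^ k) := by
        apply Nat.pow_le_pow_right (by omega)
        have h5 : k * 2 ^ k ≤ k ^ 2 * 2 ^ k := Nat.mul_le_mul_right _ (by nlinarith)
        have h6 : 1 ≤ k * 2 ^ k := Nat.one_le_iff_ne_zero.mpr (by positivity)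
        nlinarith

end Core

open Pool.Agent.PWR.Core

theorem core (h1 : T_UP) (h2 : T_LO) (h3 : T_EXC) :
    (∃ C : ℝ, 1 ≤ C ∧ ∀ k : ℕ, 1 ≤ k → ∀ x : ℝ, Real.exp (Real.exp (C * k)) ≤ x →
      x * (C * k) ^ (-(3 / 2 * k) : ℝ) ≤
        Nat.card {n : ℕ | 1 ≤ n ∧ (n : ℝ) ≤ x ∧ k + 1 ≤ h n} ∧
      (Nat.card {n : ℕ | 1 ≤ n ∧ (n : ℝ) ≤ x ∧ k + 1 ≤ h n} : ℝ) ≤
        x * (k / C) ^ (-(3 / 2 * k) : ℝ)) ∧
    (∀ ε : ℝ, 0 < ε → ∃ c : ℝ, 0 < c ∧ ∀ᶠ x : ℝ in atTop,
      (Nat.card {n : ℕ | 1 ≤ n ∧ (n : ℝ) ≤ x ∧ (Real.log n) ^ ε ≤ h n} : ℝ) ≤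
        x * Real.exp (-(c * (Real.log (Real.log x)) ^ 2))) := by
  constructor
  · refine ⟨10000, by norm_num, fun k hk x hx => ?_⟩
    have hx1 : 1 ≤ x := le_trans (Real.one_le_exp (Real.exp_pos _).le) hx
    have hx0 : 0 ≤ x := by linarith
    have ht := th_pos hk
    rw [card_eq_CT hx0 (fun n => k + 1 ≤ h n), up_eq hk, lo_eq hk]
    set N := ⌊x⌋₊ + 1 with hN
    have hNx : x ≤ N := by rw [hN]; push_cast; exact (Nat.lt_floor_add_one x).le
    have hN2 : (N : ℝ) ≤ 2 * x := by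
      rw [hN]; push_cast
      linarith [Nat.floor_le hx0]
    have hbig : (1000 * k) ^ (30 * k ^ 2 * 2 ^ k) ≤ N := by
      have := (size hk hx).trans hNx
      exact_mod_cast this
    constructor
    · refine le_trans ?_ (h2 k hk N ((size2 hk).trans hbig))
      rw [div_pow, mul_div_assoc]
      gcongr
      norm_num
    · refine le_trans (h1 k hk N hbig) ?_
      calc (N : ℝ) * 1700 ^ k * th k ^ k ≤ (2 * x) * 1700 ^ k * th k ^ k := by gcongr
        _ ≤ x * (1000000 * th k) ^ k := by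
            rw [mul_pow]
            have h5 : (2 : ℝ) * 1700 ^ k ≤ 1000000 ^ k := by
              calc (2 : ℝ) * 1700 ^ k ≤ 2 ^ k * 1700 ^ k := by
                    gcongr
                    exact le_self_pow₀ (by norm_num) (by omega)
                _ = 3400 ^ k := by rw [← mul_pow]; norm_num
                _ ≤ 1000000 ^ k := by gcongr; norm_num
            calc (2 * x) * 1700 ^ k * th k ^ k = x * ((2 * 1700 ^ k) * th k ^ k) := by ring
              _ ≤ x * (1000000 ^ k * th k ^ k) := by gcongr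
  · intro ε hε
    obtain ⟨c, hc, hev⟩ := h3 ε hε
    refine ⟨c / 2, by positivity, ?_⟩
    have hfl : Tendsto (fun x : ℝ => ⌊x⌋₊ + 1) atTop atTop :=
      (tendsto_add_atTop_nat 1).comp tendsto_nat_floor_atTop
    have hll : Tendsto (fun x : ℝ => Real.log (Real.log x)) atTop atTop :=
      Real.tendsto_log_atTop.comp Real.tendsto_log_atTop
    have hev2 := hfl.eventually hev
    filter_upwards [hev2, hll.eventually_ge_atTop (max 1 (2 * Real.log 2 / c)),
      eventually_ge_atTop (Real.exp 1)] with x hx hl hx1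
    have hx1' : 1 ≤ x := le_trans (Real.one_le_exp (by norm_num)) hx1
    have hx0 : 0 ≤ x := by linarith
    rw [card_eq_CT hx0 (fun n => (Real.log n) ^ ε ≤ h n)]
    set N := ⌊x⌋₊ + 1 with hN
    have hNx : x ≤ N := by rw [hN]; push_cast; exact (Nat.lt_floor_add_one x).le
    have hN2 : (N : ℝ) ≤ 2 * x := by
      rw [hN]; push_cast
      linarith [Nat.floor_le hx0]
    have hl1 : 1 ≤ Real.log (Real.log x) := le_trans (le_max_left _ _) hl
    have hl2 : 2 * Real.log 2 / c ≤ Real.log (Real.log x) := le_trans (le_max_right _ _) hl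
    have hlx : 1 ≤ Real.log x := by
      rw [Real.le_log_iff_exp_le (by linarith)]; exact hx1
    have hmono : Real.log (Real.log x) ≤ Real.log (Real.log N) :=
      Real.log_le_log (by linarith) (Real.log_le_log (by linarith) hNx)
    calc (CT N (fun n => (Real.log n) ^ ε ≤ h n) : ℝ)
        ≤ N * Real.exp (-(c * (Real.log (Real.log N)) ^ 2)) := hx
      _ ≤ (2 * x) * Real.exp (-(c * (Real.log (Real.log x)) ^ 2)) := by
          gcongr
      _ = x * Real.exp (Real.log 2 - c * (Real.log (Real.log x)) ^ 2) := by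
          rw [Real.exp_sub, Real.exp_log (by norm_num), Real.exp_neg]
          field_simp
      _ ≤ x * Real.exp (-(c / 2 * (Real.log (Real.log x)) ^ 2)) := by
          gcongr
          have h6 : 2 * Real.log 2 ≤ c * Real.log (Real.log x) := by
            rw [div_le_iff₀ hc] at hl2
            linarith
          have h7 : c * Real.log (Real.log x) ≤ c * (Real.log (Real.log x)) ^ 2 := by
            gcongr
            nlinarith
          linarith

end Pool.Agent.PWR
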