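import Mathlib

/-!
# MP_0ad3d3_nt: how often does an interval `[n^2, (n+1)^2)` contain many powerful numbers?

Common definitions.
-/

namespace Pool.Agent.PWR

open Finset

/-- `h n` is the number of powerful integers in `[n ^ 2, (n + 1) ^ 2)`. -/
noncomputable def h (n : ℕ) : ℕ :=
  Nat.card {m : ℕ | n ^ 2 ≤ m ∧ m < (n + 1) ^ 2 ∧ 0 < m ∧
    ∀ p : ℕ, p.Prime → p ∣ m → p ^ 2 ∣ m}

/-- `be b = b^(3/2)`. -/
noncomputable def be (b : ℕ) : ℝ := (b : ℝ) * √b

/-- `th b = b^(-3/2)`. -/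
noncomputable def th (b : ℕ) : ℝ := 1 / be b

/-- `b` hits `n`: there is an integer `a` with `n ≤ a b^(3/2) < n + 1`. -/
def Hit (b n : ℕ) : Prop := ∃ a : ℤ, (n : ℝ) ≤ a * be b ∧ a * be b < n + 1

/-- Simultaneous inhomogeneous approximation below `X`, with precision `th b / 4` at `b`. -/
def KR (T : Finset ℕ) (X : ℕ) : Prop :=
  ∀ α : ℕ → ℝ, ∃ n < X, ∀ b ∈ T, ∃ a : ℤ, |(n : ℝ) * th b - α b - a| < th b / 4

theorem one_le_be {b : ℕ} (hb : 1 ≤ b) : 1 ≤ be b := by
  have h1 : (1 : ℝ) ≤ b := by exact_mod_cast hb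
  have h2 : (1 : ℝ) ≤ √b := by rw [Real.one_le_sqrt]; exact h1
  unfold be
  nlinarith

theorem be_pos {b : ℕ} (hb : 1 ≤ b) : 0 < be b := by linarith [one_le_be hb]

theorem th_pos {b : ℕ} (hb : 1 ≤ b) : 0 < th b := by
  unfold th
  have := be_pos hb
  positivity

theorem th_le_one {b : ℕ} (hb : 1 ≤ b) : th b ≤ 1 := by
  unfold th
  rw [div_le_one (be_pos hb)]
  exact one_le_be hb

theorem th_mul_be {b : ℕ} (hb : 1 ≤ b) : th b * be b = 1 := by
  unfold th
  rw [one_div, inv_mul_cancel₀ (be_pos hb).ne']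

/-- `b` hits `n` iff `0 ≤ a - n th b < th b` for some integer `a`. -/
theorem hit_iff {b n : ℕ} (hb : 1 ≤ b) :
    Hit b n ↔ ∃ a : ℤ, 0 ≤ (a : ℝ) - n * th b ∧ (a : ℝ) - n * th b < th b := by
  have hB := be_pos hb
  have ht := th_pos hb
  have e := th_mul_be hb
  unfold Hit
  refine exists_congr fun a => ?_
  constructor
  · rintro ⟨h1, h2⟩
    constructor
    · have : (n : ℝ) * th b ≤ a * be b * th b := mul_le_mul_of_nonneg_right h1 ht.le
      nlinarith
    · have : a * be b * th b < ((n : ℝ) + 1) * th b := mul_lt_mul_of_pos_right h2 ht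
      nlinarith
  · rintro ⟨h1, h2⟩
    constructor
    · have : 0 ≤ ((a : ℝ) - n * th b) * be b := mul_nonneg h1 hB.le
      nlinarith
    · have : ((a : ℝ) - n * th b) * be b < th b * be b := mul_lt_mul_of_pos_right h2 hB
      nlinarith

open Classical in
/-- The number of integers `1 ≤ n < N` with the property `p`. -/
noncomputable def CT (N : ℕ) (p : ℕ → Prop) : ℕ := ((Finset.Ico 1 N).filter p).card

theorem CT_mono {N : ℕ} {p q : ℕ → Prop} (hpq : ∀ n, 1 ≤ n → n < N → p n → q n) :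
    CT N p ≤ CT N q := by
  classical
  unfold CT
  apply Finset.card_le_card
  intro n hn
  rw [Finset.mem_filter, Finset.mem_Ico] at hn ⊢
  exact ⟨hn.1, hpq n hn.1.1 hn.1.2 hn.2⟩

theorem CT_le_sum {N : ℕ} {p : ℕ → Prop} {κ : Type} (F : Finset κ) (q : κ → ℕ → Prop)
    (hpq : ∀ n, 1 ≤ n → n < N → p n → ∃ T ∈ F, q T n) :
    CT N p ≤ ∑ T ∈ F, CT N (q T) := by
  classical
  unfold CT
  refine le_trans (Finset.card_le_card ?_) Finset.card_biUnion_le
  intro n hn
  rw [Finset.mem_filter, Finset.mem_Ico] at hn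
  obtain ⟨T, hT, hq⟩ := hpq n hn.1.1 hn.1.2 hn.2
  rw [Finset.mem_biUnion]
  exact ⟨T, hT, by rw [Finset.mem_filter, Finset.mem_Ico]; exact ⟨hn.1, hq⟩⟩

theorem CT_or (N : ℕ) (p q : ℕ → Prop) : CT N (fun n => p n ∨ q n) ≤ CT N p + CT N q := by
  have := CT_le_sum (N := N) (p := fun n => p n ∨ q n) (Finset.univ : Finset Bool)
    (fun t => if t then p else q) (by
      intro n _ _ hn
      rcases hn with h1 | h1
      · exact ⟨true, Finset.mem_univ _, by simpa using h1⟩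
      · exact ⟨false, Finset.mem_univ _, by simpa using h1⟩)
  simpa using this

theorem CT_le (N : ℕ) (p : ℕ → Prop) : CT N p ≤ N := by
  classical
  unfold CT
  refine (Finset.card_filter_le _ _).trans ?_
  rw [Nat.card_Ico]
  omega

theorem card_eq_CT {x : ℝ} (hx : 0 ≤ x) (p : ℕ → Prop) :
    Nat.card {n : ℕ | 1 ≤ n ∧ (n : ℝ) ≤ x ∧ p n} = CT (⌊x⌋₊ + 1) p := by
  classical
  unfold CT
  rw [Nat.card_coe_set_eq, ← Set.ncard_coe_finset]
  congr 1
  ext n
  simp only [Set.mem_ofPred_eq, Finset.coe_filter, Finset.mem_Ico, Nat.lt_add_one_iff,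
    Nat.le_floor_iff hx, and_assoc]

end Pool.Agent.PWR
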