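import Pool.Agent.PWR.Targets

/-!
# Powerful numbers between squares: the lower bound
-/

namespace Pool.Agent.PWR

open Finset

namespace LO

/-- Squarefree numbers from 1 to B. -/
noncomputable def S (B : ℕ) : Finset ℕ := by
  classical
  exact (Finset.Ioc 0 B).filter Squarefree

lemma mem_S {B b : ℕ} : b ∈ S B ↔ (0 < b ∧ b ≤ B) ∧ Squarefree b := by
  classical
  unfold S
  simp

/-- telescoped sum of inverse squares -/
lemma sum_inv_sq (D : ℕ) (hD : 2 ≤ D) :
    ∑ d ∈ Finset.Icc 2 D, (1 : ℝ) / (d : ℝ) ^ 2 ≤ 3 / 4 - 1 / D := by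
  induction D, hD using Nat.le_induction with
  | base => norm_num
  | succ n hn ih =>
    rw [Finset.sum_Icc_succ_top (by omega)]
    have hn0 : (0 : ℝ) < n := by exact_mod_cast (by omega : 0 < n)
    have : (1 : ℝ) / ((n + 1 : ℕ) : ℝ) ^ 2 ≤ 1 / n - 1 / ((n + 1 : ℕ) : ℝ) := by
      push_cast
      rw [div_sub_div _ _ (by positivity) (by positivity),
        div_le_div_iff₀ (by positivity) (by positivity)]
      ring_nf
      nlinarith
    linarith

lemma card_S (B : ℕ) (hB : 2 ≤ B) : (B : ℝ) / 4 ≤ (S B).card := by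
  classical
  have hsplit : ((Finset.Ioc 0 B).filter Squarefree).card +
      ((Finset.Ioc 0 B).filter (fun n => ¬ Squarefree n)).card = B := by
    rw [Finset.card_filter_add_card_filter_not]
    simp
  have hcover : (Finset.Ioc 0 B).filter (fun n => ¬ Squarefree n) ⊆
      (Finset.Icc 2 B).biUnion (fun d => (Finset.Ioc 0 B).filter (fun n => d ^ 2 ∣ n)) := by
    intro n hn
    rw [Finset.mem_filter, Finset.mem_Ioc] at hn
    obtain ⟨⟨hn0, hnB⟩, hns⟩ := hn
    rw [Nat.squarefree_iff_prime_squarefree] at hns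
    push Not at hns
    obtain ⟨p, hp, hpn⟩ := hns
    rw [Finset.mem_biUnion]
    refine ⟨p, ?_, ?_⟩
    · rw [Finset.mem_Icc]
      refine ⟨hp.two_le, ?_⟩
      have : p ∣ n := (Dvd.intro p rfl : p ∣ p * p).trans hpn
      exact (Nat.le_of_dvd hn0 this).trans hnB
    · rw [Finset.mem_filter, Finset.mem_Ioc]
      exact ⟨⟨hn0, hnB⟩, by rwa [sq]⟩
  have hcard : (((Finset.Ioc 0 B).filter (fun n => ¬ Squarefree n)).card : ℝ) ≤
      B * (3 / 4) := by
    calc (((Finset.Ioc 0 B).filter (fun n => ¬ Squarefree n)).card : ℝ)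
        ≤ (((Finset.Icc 2 B).biUnion
            (fun d => (Finset.Ioc 0 B).filter (fun n => d ^ 2 ∣ n))).card : ℝ) := by
          exact_mod_cast Finset.card_le_card hcover
      _ ≤ ∑ d ∈ Finset.Icc 2 B, (((Finset.Ioc 0 B).filter (fun n => d ^ 2 ∣ n)).card : ℝ) := by
          exact_mod_cast Finset.card_biUnion_le
      _ ≤ ∑ d ∈ Finset.Icc 2 B, (B : ℝ) * (1 / (d : ℝ) ^ 2) := by
          apply Finset.sum_le_sum
          intro d _
          rw [Nat.Ioc_filter_dvd_card_eq_div]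
          calc ((B / d ^ 2 : ℕ) : ℝ) ≤ (B : ℝ) / ((d ^ 2 : ℕ) : ℝ) := Nat.cast_div_le
            _ = (B : ℝ) * (1 / (d : ℝ) ^ 2) := by push_cast; ring
      _ = B * ∑ d ∈ Finset.Icc 2 B, 1 / (d : ℝ) ^ 2 := by rw [Finset.mul_sum]
      _ ≤ B * (3 / 4) := by
          have h1 := sum_inv_sq B hB
          have : (0 : ℝ) ≤ 1 / (B : ℝ) := by positivity
          gcongr
          linarith
  have hs : (((Finset.Ioc 0 B).filter Squarefree).card : ℝ) +
      (((Finset.Ioc 0 B).filter (fun n => ¬ Squarefree n)).card : ℝ) = B := by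
    exact_mod_cast hsplit
  have : ((S B).card : ℝ) = (((Finset.Ioc 0 B).filter Squarefree).card : ℝ) := by
    unfold S
    rfl
  rw [this]
  linarith

theorem be_mono {a b : ℕ} (hab : a ≤ b) : be a ≤ be b := by
  unfold be
  have h1 : (a : ℝ) ≤ b := by exact_mod_cast hab
  have h2 : √(a : ℝ) ≤ √(b : ℝ) := Real.sqrt_le_sqrt h1
  have h3 : (0 : ℝ) ≤ √(a : ℝ) := Real.sqrt_nonneg _
  have h4 : (0 : ℝ) ≤ b := by positivity
  exact mul_le_mul h1 h2 h3 h4

theorem be_twelve (k : ℕ) : be (12 * k) ≤ 42 * be k := by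
  unfold be
  have h1 : √((12 * k : ℕ) : ℝ) = √12 * √(k : ℝ) := by
    push_cast
    rw [Real.sqrt_mul (by norm_num)]
  have h2 : √(12 : ℝ) ≤ 7 / 2 := by
    rw [Real.sqrt_le_left (by norm_num)]
    norm_num
  rw [h1]
  push_cast
  have h3 : (0 : ℝ) ≤ k * √(k : ℝ) := by positivity
  nlinarith

theorem th_lower {k b : ℕ} (hk : 1 ≤ k) (hb : 1 ≤ b) (hbk : b ≤ 12 * k) :
    th k / 42 ≤ th b := by
  unfold th
  have h1 : be b ≤ 42 * be k := (be_mono hbk).trans (be_twelve k)
  have h2 := be_pos hb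
  have h3 := be_pos hk
  rw [div_div, mul_comm (be k) 42]
  exact one_div_le_one_div_of_le h2 h1

theorem exists_T (k : ℕ) (hk : 1 ≤ k) :
    ∃ T : Finset ℕ, #T = k ∧ ∀ b ∈ T, 2 ≤ b ∧ b ≤ 12 * k ∧ Squarefree b := by
  have h1 := card_S (12 * k) (by omega)
  have h2 : 3 * k ≤ #(S (12 * k)) := by
    have : ((3 * k : ℕ) : ℝ) ≤ (#(S (12 * k)) : ℝ) := by
      push_cast at h1 ⊢
      linarith
    exact_mod_cast this
  have h3 : k ≤ #((S (12 * k)).erase 1) := by
    have := Finset.pred_card_le_card_erase (s := S (12 * k)) (a := 1)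
    omega
  obtain ⟨T, hT, hc⟩ := Finset.exists_subset_card_eq h3
  refine ⟨T, hc, fun b hb => ?_⟩
  have := hT hb
  rw [Finset.mem_erase, mem_S] at this
  refine ⟨?_, this.2.1.2, this.2.2⟩
  have h4 := this.1
  have h5 := this.2.1.1
  omega

end LO

open LO in
/-- LO -/
theorem tLO (h1 : T_PIG) (h2 : T_KRY) (h3 : T_HLO) : T_LO := by
  intro k hk N hN
  obtain ⟨T, hTk, hT⟩ := exists_T k hk
  have hY : 12 * k ≤ 1000 * k ^ 2 := by nlinarith
  have hKR := h2 k (1000 * k ^ 2) hk le_rfl T hTk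
    (fun b hb => ⟨(hT b hb).1, (hT b hb).2.1.trans hY, (hT b hb).2.2⟩)
  have hne : T.Nonempty := by
    rw [← Finset.card_pos, hTk]
    omega
  have hP := h1 T _ hne (fun b hb => (hT b hb).1) hKR N hN
  have hM : CT N (fun n => ∀ b ∈ T, Hit b n) ≤ CT N (fun n => k + 1 ≤ h n) := by
    apply CT_mono
    intro n hn _ hh
    have := h3 n hn T (fun b hb => ⟨(hT b hb).1, (hT b hb).2.2, hh b hb⟩)
    rwa [hTk] at this
  have hM' : (CT N (fun n => ∀ b ∈ T, Hit b n) : ℝ) ≤ CT N (fun n => k + 1 ≤ h n) := by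
    exact_mod_cast hM
  refine le_trans ?_ (hP.trans hM')
  have htk := th_pos hk
  have hprod : (th k / 210) ^ k ≤ ∏ b ∈ T, (th b / 5) := by
    rw [← hTk, ← Finset.prod_const]
    apply Finset.prod_le_prod
    · intro b _
      rw [hTk]
      positivity
    · intro b hb
      rw [hTk]
      have := th_lower hk (by have := (hT b hb).1; omega : 1 ≤ b) (hT b hb).2.1
      linarith
  have hN0 : (0 : ℝ) ≤ N := by positivity
  have hpow : (2 : ℝ) * 210 ^ k ≤ 1000 ^ k := by
    have e1 : (2 : ℝ) ≤ 2 ^ k := by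
      calc (2 : ℝ) = 2 ^ 1 := by norm_num
        _ ≤ 2 ^ k := pow_le_pow_right₀ (by norm_num) hk
    calc (2 : ℝ) * 210 ^ k ≤ 2 ^ k * 210 ^ k := by
          apply mul_le_mul_of_nonneg_right e1 (by positivity)
      _ = 420 ^ k := by rw [← mul_pow]; norm_num
      _ ≤ 1000 ^ k := pow_le_pow_left₀ (by norm_num) (by norm_num) k
  calc (N : ℝ) * th k ^ k / 1000 ^ k ≤ (N : ℝ) * th k ^ k / (2 * 210 ^ k) := by
        apply div_le_div_of_nonneg_left (by positivity) (by positivity) hpow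
    _ = (N : ℝ) / 2 * (th k / 210) ^ k := by
        rw [div_pow]
        field_simp
    _ ≤ (N : ℝ) / 2 * ∏ b ∈ T, (th b / 5) := by
        apply mul_le_mul_of_nonneg_left hprod (by positivity)

end Pool.Agent.PWR
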