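import Pool.Agent.PWR.Defs

/-!
# MP_0ad3d3_nt (powerful numbers between squares), targets

Goal: (1) uniformly for `k ≤ c log log x` the number of `n ≤ x` with `h n ≥ k + 1` is
`x k^(-3k/2) e^(O(k))`; (2) `h n < (log n)^ε` for all `n ≤ x` outside a set of at most
`x exp(-c (log log x)^2)` integers.

Notation: `th b = b^(-3/2)`, `be b = b^(3/2)`, `Hit b n` : `n ≤ a b^(3/2) < n + 1` for some `a`;
`hit_iff` : `Hit b n` iff `0 ≤ a - n th b < th b` for some integer `a`;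
`CT N p` = number of `1 ≤ n < N` with `p n`.

Every target is a `Prop`; prove it as `theorem tNAME ... : T_NAME` in
`Pool/Agent/PWR/NAME.lean` (namespace `Pool.Agent.PWR`), with the targets it cites as hypotheses
(or imported, if they are landed).
-/

namespace Pool.Agent.PWR

open Finset

/-- PIN. The product over all signs is an integer.
Proof. For `e : ι → ℤˣ` let `φ e = MvPolynomial.aeval (fun i => (e i : ℝ) * √(β i)) :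
MvPolynomial ι ℤ →ₐ[ℤ] ℝ` and `tw d = MvPolynomial.aeval (fun i => C (d i : ℤ) * X i) :
MvPolynomial ι ℤ →ₐ[ℤ] MvPolynomial ι ℤ`. Then `φ e (tw d p) = φ (e * d) p` (check on `X i`,
`MvPolynomial.algHom_ext`). Put `p = C u0 + ∑ i, C (u i) * X i`, `Q = ∏ d, tw d p`. For every `e`:
`φ e Q = ∏ d, φ (e * d) p = ∏ d, φ d p =: G` (reindex by the bijection `d ↦ e * d` of the group
`ι → ℤˣ`), and `G` is the product in the statement. Sum over `e`: `2^k G = ∑ e, φ e Q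
= ∑ μ ∈ Q.support, Q.coeff μ * ∑ e, ∏ i, ((e i) √(β i))^(μ i)` (`k = card ι`,
`MvPolynomial.aeval_eq_sum` / `eval₂_eq'`), and by `Finset.prod_univ_sum` (Fintype.piFinset univ)
`∑ e, ∏ i, ((e i) √(β i))^(μ i) = ∏ i, ∑ s : ℤˣ, (s √(β i))^(μ i)`, where the inner sum is
`2 (β i)^(μ i / 2)` if `μ i` is even and `0` if it is odd. So it is `2^k` times an integer, hence
`2^k G = 2^k z`. -/
def T_PIN : Prop := ∀ (ι : Type) [Fintype ι] [DecidableEq ι] (β : ι → ℕ) (u : ι → ℤ) (u0 : ℤ),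
  ∃ z : ℤ, ∏ e : ι → ℤˣ, ((u0 : ℝ) + ∑ i, ((e i : ℤ) : ℝ) * (u i * √(β i))) = z

/-- LIN. Square roots of distinct squarefree numbers `≥ 2` and `1` are linearly independent.
Proof (trace). Put `T' = insert 1 T`, `u 1 := u0` (`1 ∉ T`), so `∑ b ∈ T', u b √b = 0`. Let
`L = IntermediateField.adjoin ℚ {√b : b ∈ T'} ⊂ ℝ`, finite over `ℚ` (finite set of integral
elements: `IntermediateField.finiteDimensional_adjoin`). Fix `b0 ∈ T'` and multiply the relation by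
`√b0`: `∑ b ∈ T', u b √b √b0 = 0` in `L`; take `Algebra.trace ℚ L`. The term `b = b0` is
`u b0 * b0`, a rational, of trace `[L:ℚ] u b0 b0`. For `b ≠ b0` the element `y = √b √b0` has
`y² = b b0`, not the square of a rational (`b b0` is not a square since `b ≠ b0` are squarefree: if
`b b0 = w²` then `b ∣ w` and `b0 ∣ w` by squarefreeness, `b0 ∣ b`, `b ∣ b0`), so its minimal
polynomial over `ℚ` is `X² - b b0` (irreducible since it has no rational root), whose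
`nextCoeff` is `0`; `trace_eq_finrank_mul_minpoly_nextCoeff` (or `Algebra.trace` through
`minpoly.nextCoeff`) gives trace `0`. Hence `[L:ℚ] u b0 b0 = 0` and `u b0 = 0`. (Any other proof,
e.g. by induction on the primes, is fine.) -/
def T_LIN : Prop := ∀ T : Finset ℕ, (∀ b ∈ T, 2 ≤ b ∧ Squarefree b) → ∀ (u : ℕ → ℤ) (u0 : ℤ),
  (u0 : ℝ) + ∑ b ∈ T, (u b : ℝ) * √(b : ℝ) = 0 → u0 = 0 ∧ ∀ b ∈ T, u b = 0

/-- NRM (from PIN, LIN). The norm bound. Let `k = #T`, `P = ∏ b²`, `H = P (2 m k + 2) ≥ 1`.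
`th b = √b / b²`. If `|c0| ≥ m k + 1` then `|c0 + ∑ c b th b| ≥ |c0| - m k ≥ 1` (`th b ≤ 1`), and
`H^(2^k) ≥ 1`. Otherwise `|c0| ≤ m k`. Put `u b = c b * ∏ b' ∈ T.erase b, b'²` (so
`u b √b = c b P th b`), `u0 = c0 P`, and for `e : T → ℤˣ` let `F e = u0 + ∑ b, e b u b √b`. Each
`F e ≠ 0` by LIN applied to `e b u b` (not all zero), `|F e| ≤ P (|c0| + m k) ≤ H`,
`F 1 = P (c0 + ∑ c b th b)`, and `∏ e, F e = z` is a nonzero integer by PIN (`ι = T`), so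
`1 ≤ ∏ |F e| ≤ |F 1| H^(2^k - 1) ≤ H^(2^k) |c0 + ∑ c b th b|` (`P ≤ H`;
`card (T → ℤˣ) = 2^k`). -/
def T_NRM : Prop := ∀ T : Finset ℕ, (∀ b ∈ T, 2 ≤ b ∧ Squarefree b) → ∀ m : ℕ, 1 ≤ m →
  ∀ c : ℕ → ℤ, (∀ b ∈ T, |c b| ≤ m) → (∃ b ∈ T, c b ≠ 0) → ∀ c0 : ℤ,
  1 ≤ ((∏ b ∈ T, (b : ℝ) ^ 2) * (2 * m * #T + 2)) ^ (2 ^ #T) *
    |(c0 : ℝ) + ∑ b ∈ T, (c b : ℝ) * th b|

/-- EXP. Exponential sums.
Proof. Write `E t = exp(2 π I t)`. `cos (π y)^(2m) = 4^(-m) ∑ j ∈ range (2m+1), C(2m,j) E((j-m) y)`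
(binomial theorem for `((E(y/2) + E(-y/2))/2)^(2m)`). With `y_i = n θ i - α i` the product over `i`
is (`Finset.prod_univ_sum`) the sum over `J : ι → ℕ` in `Fintype.piFinset (fun _ => range (2m+1))`
of `A J * E(-∑ (J i - m) α i) * E(n s_J)`, `A J = ∏ i, C(2m,J i)/4^m ≥ 0`,
`s_J = ∑ (J i - m) θ i`. Swap with the sum over `n < N`. For `J = m` (constant) `s_J = 0` and the
term is `N (C(2m,m)/4^m)^k ≥ N/(2m+1)^k` (`Nat.four_pow_le_two_mul_add_one_mul_central_binom` /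
`Nat.centralBinom`: `4^m ≤ (2m+1) C(2m,m)`; `k = card ι`). For the other `J` let `c i = J i - m`,
`c ≠ 0`, `|c i| ≤ m`; with `c0 = -round s_J` the hypothesis gives `1 ≤ W |s_J + c0|`, in particular
`d = |s_J - round s_J| > 0`; `|∑ n<N, E(n s_J)| = |E(N s_J) - 1| / |E(s_J) - 1| ≤ 2/(2 |sin(π s_J)|)
= 1/sin(π d) ≤ 1/(2d) ≤ W` (`sin(π d) ≥ 2 d` for `0 ≤ d ≤ 1/2`, `Real.mul_le_sin`). The sum of all
`A J` is `∏ i ∑ j C(2m,j)/4^m = 1`, so all the other terms together are at most `W` in absolute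
value. Take real parts. -/
def T_EXP : Prop := ∀ (ι : Type) [Fintype ι] [DecidableEq ι] (θ α : ι → ℝ) (m N : ℕ) (W : ℝ),
  0 ≤ W →
  (∀ c : ι → ℤ, c ≠ 0 → (∀ i, |c i| ≤ m) → ∀ c0 : ℤ,
    1 ≤ W * |(c0 : ℝ) + ∑ i, (c i : ℝ) * θ i|) →
  (N : ℝ) / (2 * m + 1) ^ Fintype.card ι - W ≤
    ∑ n ∈ range N, ∏ i, Real.cos (Real.pi * (n * θ i - α i)) ^ (2 * m)

/-- KRO (from EXP). Effective Kronecker theorem.
Proof. Suppose not: for every `n < N` there is `i` with `|n θ i - α i - a| ≥ θ i / 4` for all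
integers `a`. Let `y = n θ i - α i`, `d = |y - round y| ∈ [θ i/4, 1/2]`; then
`cos(π y)² = cos(π d)² = 1 - sin(π d)²`, `sin(π d) ≥ 2 d ≥ θ i / 2 ≥ δ/2`, so `cos(π y)² ≤ 1 - δ²/4
≤ exp(-δ²/4)` and `cos(π y)^(2m) ≤ exp(-m δ²/4)`; all other factors are in `[0,1]`. So the sum in
EXP is `≤ N exp(-m δ²/4) ≤ N / (2 (2m+1)^k)` by the hypothesis on `m`. With EXP:
`N/(2 (2m+1)^k) ≤ W`, contradiction to `2 W (2m+1)^k < N`. (If `ι` is empty every `n < N` works,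
`N > 0`.) -/
def T_KRO : Prop := ∀ (ι : Type) [Fintype ι] [DecidableEq ι] (θ α : ι → ℝ) (δ : ℝ) (m N : ℕ)
  (W : ℝ), 0 ≤ W → 0 < δ → (∀ i, δ ≤ θ i ∧ θ i ≤ 1) →
  (∀ c : ι → ℤ, c ≠ 0 → (∀ i, |c i| ≤ m) → ∀ c0 : ℤ,
    1 ≤ W * |(c0 : ℝ) + ∑ i, (c i : ℝ) * θ i|) →
  (2 * m + 1 : ℝ) ^ Fintype.card ι * Real.exp (-(m * δ ^ 2 / 4)) ≤ 1 / 2 →
  2 * W * (2 * m + 1 : ℝ) ^ Fintype.card ι < N →
  ∃ n < N, ∀ i, ∃ a : ℤ, |(n : ℝ) * θ i - α i - a| < θ i / 4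

/-- KRY (from KRO, NRM). Proof. `ι = T`, `θ = th`, `m = Y^4`, `δ = th Y = Y^(-3/2)` (`δ² = Y^(-3)`;
`th` is antitone), `P = ∏ b² ≤ Y^(2k)`, `H = P (2 m k + 2) ≤ Y^(2k) * (4 k Y^4) ≤ Y^(2k+5)`
(`4 k ≤ Y`), `W = H^(2^k) ≤ Y^((2k+5) 2^k)`. A vector `c : T → ℤ`, `c ≠ 0`, is extended by `0`.
`(2m+1)^k ≤ (3 Y^4)^k ≤ Y^(5k)`. Condition on `m`: `m δ²/4 = Y/4`, and `Y^(5k) exp(-Y/4) ≤ 1/2`
since `5 k log Y + log 2 ≤ Y/4`: `log Y = 4 log Y^(1/4) ≤ 4 Y^(1/4)`, so `5 k log Y ≤ 20 k Y^(1/4)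
≤ Y/8` because `Y^(3/4) ≥ (1000 k²)^(3/4) ≥ 160 k` (`1000^(3/4) = 177.8`, `k^(3/2) ≥ k`), and
`log 2 ≤ 1 ≤ Y/8`. Condition on `N`: `2 W (2m+1)^k ≤ 2 Y^((2k+5) 2^k + 5k) < Y^((2k+5) 2^k + 5k + 1)
≤ Y^(10 k 2^k)` since `2^k ≥ 2`: `(2k+5) 2^k + 5k + 1 ≤ (2k+5) 2^k + 3k 2^k = (5k+5) 2^k ≤
10 k 2^k`. -/
def T_KRY : Prop := ∀ k Y : ℕ, 1 ≤ k → 1000 * k ^ 2 ≤ Y → ∀ T : Finset ℕ, #T = k →
  (∀ b ∈ T, 2 ≤ b ∧ b ≤ Y ∧ Squarefree b) → KR T (Y ^ (10 * k * 2 ^ k))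

/-- PACK. Upper bound by packing.
Proof. For `b ∈ T` let `M b = max 1 ⌊be b / 3⌋₊`, so `M b ≥ be b / 6` and: `M b = 1` or
`3 M b th b ≤ 1`. For `j ∈ T.pi (fun b => range (M b))` choose by `KR` with `α b = 3 j b th b` a
number `n_j < X` with `|n_j th b - 3 j b th b - a| < th b / 4` for some integer `a`, all `b ∈ T`.
Let `B = {1 ≤ n < N : all b ∈ T hit n}`. The map `B × (pi) → range (2N)`, `(n, j) ↦ n + n_j`
(`n_j < X ≤ N`) is injective: if `n + n_j = n' + n_j'` then for `b ∈ T`, by `hit_iff`,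
`(n - n') th b` is an integer plus a number in `(-th b, th b)`, and
`(n - n') th b = (n_j' - n_j) th b` is an integer plus `3 (j' b - j b) th b` plus a number in
`(-th b/2, th b/2)`. So `3 (j' b - j b) th b` differs from an integer by less than `3/2 th b`; but
if `j b ≠ j' b` then (`M b ≥ 2`) `3 th b ≤ 3 |j' b - j b| th b ≤ 3 (M b - 1) th b ≤ 1 - 3 th b`, a
contradiction. So `j = j'` and `n = n'`. Hence `#B * ∏ M b ≤ 2 N` and `#B ≤ 2 N ∏ (6 th b)`. -/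
def T_PACK : Prop := ∀ (T : Finset ℕ) (X : ℕ), (∀ b ∈ T, 2 ≤ b) → KR T X → ∀ N : ℕ, X ≤ N →
  (CT N (fun n => ∀ b ∈ T, Hit b n) : ℝ) ≤ 2 * N * 6 ^ #T * ∏ b ∈ T, th b

/-- PIG. Lower bound by pigeonhole.
Proof. Let `K b = ⌈4 be b⌉₊`, `4 be b ≤ K b ≤ 5 be b`, `L = N - X ≥ N/2`. Cells: to `n < L` attach
`(⌊Int.fract (n th b) * K b⌋₊)_b` in `T.pi (fun b => range (K b))`. Some cell contains a set `D` of
at least `L / ∏ K b` numbers (`Finset.exists_le_card_fiber_of_mul_le_card_of_maps_to`, or sum of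
fibres). Let `n1 = min D` (if `L = 0` then `N = 0` and the claim is trivial). For `n ∈ D`,
`d = n - n1 < L` satisfies: `d th b` is within `1/K b ≤ th b / 4` of an integer, strictly, for all
`b ∈ T`. By `KR` with `α b = - th b / 2` there are `n0 < X` and integers `a_b` with
`|n0 th b + th b/2 - a_b| < th b/4`, that is `a_b - n0 th b ∈ (th b/4, 3 th b/4)`; `n0 ≠ 0` since
`T` is nonempty and `th b ≤ 1`. So `n0 + d` is hit by all `b ∈ T` (`hit_iff`), `1 ≤ n0 + d < N`,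
and these are `#D ≥ (N/2) ∏ 1/K b ≥ (N/2) ∏ (th b/5)` different numbers. -/
def T_PIG : Prop := ∀ (T : Finset ℕ) (X : ℕ), T.Nonempty → (∀ b ∈ T, 2 ≤ b) → KR T X →
  ∀ N : ℕ, 2 * X ≤ N →
  (N : ℝ) / 2 * ∏ b ∈ T, (th b / 5) ≤ CT N (fun n => ∀ b ∈ T, Hit b n)

/-- HUP. Powerful numbers give hits.
Proof. A powerful `m > 0` is `a² b³` with `b` squarefree: `m = s² b`, `b` squarefree
(`Nat.sq_mul_squarefree`); a prime `p ∣ b` divides `s` (otherwise `p² ∣ m = s² b` gives `p² ∣ b`),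
so `b ∣ s` (`b` squarefree) and `s = a b`. If `n² ≤ a² b³ < (n+1)²` then `n ≤ a be b < n + 1`
(square roots, `(be b)² = b³`), so `Hit b n`. The map `m ↦ b` is injective on the powerful
`m ∈ [n², (n+1)²)`: the same `b` and `a < a'` give `a' be b - a be b ≥ 1`, impossible for two
numbers of `[n, n+1)`. So there are `h n` squarefree `b ≥ 1` that hit `n`; at most `Z` of them are
`≤ Z`, at least `R` are `> Z`; take a subset of `R` elements (`Finset.exists_subset_card_eq`). -/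
def T_HUP : Prop := ∀ n Z R : ℕ, Z + R ≤ h n →
  ∃ T : Finset ℕ, #T = R ∧ ∀ b ∈ T, Z < b ∧ Squarefree b ∧ Hit b n

/-- HLO. Hits give powerful numbers. See `card_le_of_pigeon` and `sqfree_unique` in
`Pool/Agent/Results/MP_0ad3d3_nt/LowerHalf.lean` (copy what you need).
Proof. For `b ∈ T` the integer `a` of `Hit b n` is positive (`n ≥ 1`), `m_b = a² b³` is powerful,
`n² ≤ m_b < (n+1)²`; together with `m_1 = n²` (that is `b = 1`, `a = n`) these are `#T + 1`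
different numbers (the squarefree part of `m_b` is `b`). -/
def T_HLO : Prop := ∀ n : ℕ, 1 ≤ n → ∀ T : Finset ℕ,
  (∀ b ∈ T, 2 ≤ b ∧ Squarefree b ∧ Hit b n) → #T + 1 ≤ h n

/-- BIG. Hits by large `b` are rare.
Proof. If `1 ≤ n < N` and `Hit b n` with `a`: `a ≥ 1`, `n = ⌊a be b⌋₊`, `a be b < n + 1 ≤ N`, so
`b ≤ be b < N` and `1 ≤ a < N / be b`, at most `N th b` values of `a` for each `b`. So the count is
at most `∑ b ∈ Ioo Y N, N th b` (`CT_le_sum` or an image of a sigma set), and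
`∑_{b > Y} th b ≤ 2/√Y` by `th b ≤ 2/√(b-1) - 2/√b` (telescoping; `1/√(b-1) - 1/√b =
(√b - √(b-1))/(√b √(b-1)) = 1/(√b √(b-1) (√b + √(b-1))) ≥ 1/(2 b √b)`). -/
def T_BIG : Prop := ∀ N Y : ℕ, 1 ≤ Y →
  (CT N (fun n => ∃ b, Y < b ∧ Hit b n) : ℝ) ≤ 2 * N / √(Y : ℝ)

/-- SYM. Elementary symmetric sums of `th b`.
Proof. For `z > 0`: `(∑ T ∈ S.powersetCard k, ∏ b ∈ T, th b) z^k ≤ ∏ b ∈ S, (1 + z th b)`
(`Finset.prod_one_add` expands the product over all subsets, all terms are nonnegative).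
(1) `S = Ioc 1 Y`, `z = be k = k √k`. For `b ≤ k`: `z th b = (k/b)^(3/2) ≥ 1`, so
`1 + z th b ≤ 2 z th b` and `∏_{2 ≤ b ≤ k} (1 + z th b) ≤ ∏_{1 ≤ b ≤ k} 2 (k/b)^(3/2)
= 2^k (k^k/k!)^(3/2) ≤ 2^k e^(3k/2)` (`k^k/k! ≤ e^k`: `Nat.factorial_lt`-type or
`Real.pow_div_factorial_le_exp`). For `b > k`: `1 + z th b ≤ exp(z th b)` and
`∑_{b > k} z th b ≤ k √k * 2/√k = 2 k` (telescoping as in BIG). So
`∑ ∏ ≤ th k ^ k (2 e^(3/2) e^2)^k ≤ th k ^ k 70^k` (`e^(7/2) < 33.2`; `th k * be k = 1`).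
(2) `S = Ioc Z Y`: `∏ (1 + z th b) ≤ exp(z ∑ th b) ≤ exp(2 z/√Z)`; take `z = √Z/2`:
`∑ ∏ ≤ e (2/√Z)^R ≤ 3 (2/√Z)^R`. -/
def T_SYM : Prop :=
  (∀ k Y : ℕ, 1 ≤ k →
    ∑ T ∈ (Ioc 1 Y).powersetCard k, ∏ b ∈ T, th b ≤ 70 ^ k * th k ^ k) ∧
  (∀ R Z Y : ℕ, 1 ≤ Z →
    ∑ T ∈ (Ioc Z Y).powersetCard R, ∏ b ∈ T, th b ≤ 3 * (2 / √(Z : ℝ)) ^ R)

/-- CNT (from HUP, BIG, PACK, KRY).
Proof. Let `1 ≤ n < N`, `Z + R ≤ h n`. HUP gives `T`, `#T = R`, all `b ∈ T` squarefree, `> Z` and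
hitting `n`. If some `b ∈ T` is `> Y`, `n` is counted by BIG. Otherwise `T` is in
`F = ((Ioc Z Y).powersetCard R).filter (all elements squarefree)`, `b ≥ Z + 1 ≥ 2`, and `n` is
counted by `CT N (fun n => ∀ b ∈ T, Hit b n)`, which is `≤ 2 N 6^R ∏ th b` by PACK with
`X = Y^(10 R 2^R) ≤ N` from KRY. Add up with `CT_or`, `CT_mono`, `CT_le_sum`; drop the filter
(the terms are nonnegative). -/
def T_CNT : Prop := ∀ R Z Y N : ℕ, 1 ≤ R → 1 ≤ Z → 1000 * R ^ 2 ≤ Y →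
  Y ^ (10 * R * 2 ^ R) ≤ N →
  (CT N (fun n => Z + R ≤ h n) : ℝ) ≤ 2 * N / √(Y : ℝ) +
    2 * N * 6 ^ R * ∑ T ∈ (Ioc Z Y).powersetCard R, ∏ b ∈ T, th b

/-- UP (from CNT, SYM). Proof. CNT with `R = k`, `Z = 1`, `Y = (1000 k)^(3k)` (`≥ 1000 k²`,
`Y^(10 k 2^k) = (1000 k)^(30 k² 2^k)`). `2 N/√Y ≤ 2 N (1000 k)^(-3k/2) = 2 N 1000^(-3k/2) th k ^ k`,
(`√Y = (√(1000 k))^(3k)`, `(√(1000k))^3 = 1000 k √(1000 k) ≥ be k`, so `2N/√Y ≤ 2 N th k ^ k`), and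
SYM (1) bounds the rest by `2 N 6^k 70^k th k ^ k`. `2 + 2 * 420^k ≤ 1700^k`. -/
def T_UP : Prop := ∀ k : ℕ, 1 ≤ k → ∀ N : ℕ, (1000 * k) ^ (30 * k ^ 2 * 2 ^ k) ≤ N →
  (CT N (fun n => k + 1 ≤ h n) : ℝ) ≤ N * 1700 ^ k * th k ^ k

/-- LO (from PIG, KRY, HLO). Proof. `[1, 12 k]` contains at least `12k/4 = 3k ≥ k + 1` squarefree
numbers (`Pool.Agent.Results.MP_0ad3d3_nt.LowerHalf.card_S`), so there is a set `T` of `k`
squarefree numbers in `[2, 12k]`; `12 k ≤ 1000 k² = Y`, so KRY gives `KR T X`,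
`X = (1000 k²)^(10 k 2^k)`, and PIG gives at least `(N/2) ∏ (th b/5)` numbers `1 ≤ n < N` hit by
all `b ∈ T`, and then `h n ≥ k + 1` by HLO. `th b ≥ th (12k) = th k / (12 √12) ≥ th k / 42`, so
`(N/2) ∏ (th b / 5) ≥ (N/2) (th k/210)^k ≥ N (th k)^k / 1000^k`. -/
def T_LO : Prop := ∀ k : ℕ, 1 ≤ k → ∀ N : ℕ, 2 * (1000 * k ^ 2) ^ (10 * k * 2 ^ k) ≤ N →
  (N : ℝ) * th k ^ k / 1000 ^ k ≤ CT N (fun n => k + 1 ≤ h n)

/-- EXC (from CNT, SYM). Proof. Let `ℓ = log log N`, `N` large, `ε ≤ 1` without loss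
(`(log n)^ε` is increasing in `ε` for `n ≥ 3`; `n ≤ 2` is absorbed by the trivial part). Put
`R = ⌊ℓ⌋₊`, `Z = ⌊(log N)^(ε/2)⌋₊`, `Y = ⌈exp(ℓ²)⌉₊`. For large `N`: `1000 R² ≤ Y`;
`Y^(10 R 2^R) ≤ N`, because `log Y ≤ 2 ℓ²`, `2^R ≤ (log N)^(log 2)`, so
`10 R 2^R log Y ≤ 20 ℓ³ (log N)^(log 2) ≤ log N`; and `Z + R ≤ (log N / 2)^ε`. If
`√N ≤ n < N` and `(log n)^ε ≤ h n`, then `log n ≥ log N / 2` and `h n ≥ (log N/2)^ε ≥ Z + R`. So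
the count is at most `√N + 1 + [2N/√Y + 2 N 6^R 3 (2/√Z)^R]` by CNT and SYM (2).
`2N/√Y ≤ 2 N exp(-ℓ²/2)`; `√Z ≥ (log N)^(ε/4)/2`, so `(12/√Z)^R ≤ (24 (log N)^(-ε/4))^R ≤
((log N)^(-ε/8))^R = exp(-ε ℓ R/8) ≤ exp(-ε ℓ²/16)` (`R ≥ ℓ/2`). All three parts are
`≤ (N/3) exp(-c ℓ²)` with `c = ε/32` for large `N`. -/
def T_EXC : Prop := ∀ ε : ℝ, 0 < ε → ∃ c : ℝ, 0 < c ∧ ∀ᶠ N : ℕ in Filter.atTop,
  (CT N (fun n => (Real.log n) ^ ε ≤ h n) : ℝ) ≤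
    N * Real.exp (-(c * (Real.log (Real.log N)) ^ 2))

end Pool.Agent.PWR
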